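import Mathlib
import Pool.Agent.W252.GelDefs

set_option autoImplicit false

open Finset Polynomial

namespace Pool.Agent.W669.GelA1

theorem det_leib {n : ℕ} (B : Matrix (Fin n) (Fin n) ℂ) : ‖B.det‖ ≤ ∏ j, ∑ i, ‖B i j‖ := by
  classical
  rw [Matrix.det_apply', Finset.prod_univ_sum]
  refine (norm_sum_le _ _).trans ?_
  have h1 : ∀ σ ∈ (Finset.univ : Finset (Equiv.Perm (Fin n))),
      ‖((Equiv.Perm.sign σ : ℤ) : ℂ) * ∏ i, B (σ i) i‖ = ∏ i, ‖B (σ i) i‖ := by
    intro σ _
    rw [norm_mul, norm_prod]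
    rcases Int.units_eq_one_or (Equiv.Perm.sign σ) with h | h <;> rw [h] <;> simp
  rw [Finset.sum_congr rfl h1]
  have h2 : ∑ σ : Equiv.Perm (Fin n), ∏ i, ‖B (σ i) i‖ =
      ∑ x ∈ Finset.image (DFunLike.coe : Equiv.Perm (Fin n) → Fin n → Fin n) Finset.univ,
        ∏ i, ‖B (x i) i‖ := by
    rw [Finset.sum_image]
    intro a _ b _ h
    exact DFunLike.coe_injective h
  rw [h2]
  refine Finset.sum_le_sum_of_subset_of_nonneg ?_ (fun x _ _ => by positivity)
  intro x _
  simp

theorem det_upd {n : ℕ} (hn : 0 < n) (S : Matrix (Fin n) (Fin n) ℂ) (u : Fin n → ℂ) (μ : ℝ)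
    (hu : ∀ j, ‖u j‖ ≤ μ) (Lc : Fin n → ℝ) (hL : ∀ j, ∑ i, ‖S i j‖ ≤ Lc j) (hL1 : ∀ j, 1 ≤ Lc j) :
    ‖(S.updateRow ⟨0, hn⟩ u).det‖ ≤ n * μ * ∏ j, Lc j := by
  classical
  obtain ⟨N, rfl⟩ : ∃ N, n = N + 1 := ⟨n - 1, by omega⟩
  have hμ : 0 ≤ μ := (norm_nonneg _).trans (hu ⟨0, hn⟩)
  rw [Matrix.det_succ_row_zero]
  refine (norm_sum_le _ _).trans ?_
  have h1 : ∀ j ∈ (Finset.univ : Finset (Fin (N + 1))),
      ‖(-1) ^ (j : ℕ) * (S.updateRow ⟨0, hn⟩ u) 0 j *
        ((S.updateRow ⟨0, hn⟩ u).submatrix Fin.succ j.succAbove).det‖ ≤ μ * ∏ j, Lc j := by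
    intro j _
    rw [norm_mul, norm_mul, norm_pow, norm_neg, norm_one, one_pow, one_mul]
    have e0 : (S.updateRow ⟨0, hn⟩ u) 0 j = u j := by
      have : (0 : Fin (N + 1)) = ⟨0, hn⟩ := rfl
      rw [this, Matrix.updateRow_self]
    rw [e0]
    refine mul_le_mul (hu j) ?_ (norm_nonneg _) hμ
    refine (det_leib _).trans ?_
    have e1 : ∀ k : Fin N, ∑ i, ‖((S.updateRow ⟨0, hn⟩ u).submatrix Fin.succ j.succAbove) i k‖ ≤
        Lc (j.succAbove k) := by
      intro k
      refine le_trans ?_ (hL (j.succAbove k))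
      rw [Fin.sum_univ_succ (fun i => ‖S i (j.succAbove k)‖)]
      refine le_trans (le_of_eq ?_) (le_add_of_nonneg_left (norm_nonneg _))
      refine Finset.sum_congr rfl fun i _ => ?_
      rw [Matrix.submatrix_apply, Matrix.updateRow_ne]
      exact Fin.succ_ne_zero i
    refine (Finset.prod_le_prod (fun _ _ => by positivity) (fun k _ => e1 k)).trans ?_
    rw [Fin.prod_univ_succAbove Lc j]
    have h2 : 0 ≤ ∏ i, Lc (j.succAbove i) :=
      Finset.prod_nonneg fun i _ => zero_le_one.trans (hL1 _)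
    nlinarith [hL1 j]
  refine (Finset.sum_le_sum h1).trans ?_
  rw [Finset.sum_const, Finset.card_univ, Fintype.card_fin, nsmul_eq_mul, mul_assoc]

theorem sum_shift {E : Type*} [AddCommMonoid E] (p q j : ℕ) (hj : j < p) (h : ℕ → E) :
    ∑ i : Fin (p + q), (if (i : ℕ) ∈ Set.Icc j (j + q) then h (i - j) else 0) =
      ∑ k ∈ range (q + 1), h k := by
  classical
  rw [Fin.sum_univ_eq_sum_range (fun i => if i ∈ Set.Icc j (j + q) then h (i - j) else 0) (p + q),
    ← Finset.sum_filter]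
  have h1 : (range (p + q)).filter (fun i => i ∈ Set.Icc j (j + q)) = Finset.Ico j (j + q + 1) := by
    ext i
    simp only [Finset.mem_filter, Finset.mem_range, Set.mem_Icc, Finset.mem_Ico]
    omega
  rw [h1, Finset.sum_Ico_eq_sum_range]
  have h2 : j + q + 1 - j = q + 1 := by omega
  rw [h2]
  refine Finset.sum_congr rfl fun k _ => ?_
  rw [Nat.add_sub_cancel_left]

/-- Sum of absolute values of the coefficients. -/
noncomputable def len (f : ℂ[X]) : ℝ := ∑ k ∈ range (f.natDegree + 1), ‖f.coeff k‖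

theorem len_le (f : ℂ[X]) : len f ≤ 2 ^ f.natDegree * f.mahlerMeasure := by
  unfold len
  refine (Finset.sum_le_sum fun k _ => norm_coeff_le_choose_mul_mahlerMeasure k f).trans ?_
  rw [← Finset.sum_mul]
  refine le_of_eq ?_
  congr 1
  have := Nat.sum_range_choose f.natDegree
  exact_mod_cast this

theorem one_le_len (P : ℤ[X]) (hP : P ≠ 0) : 1 ≤ len (P.map (Int.castRingHom ℂ)) := by
  unfold len
  have hd : (P.map (Int.castRingHom ℂ)).natDegree = P.natDegree :=
    natDegree_map_eq_of_injective (RingHom.injective_int _) P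
  rw [hd]
  have h1 : (1 : ℝ) ≤ ‖(P.map (Int.castRingHom ℂ)).coeff P.natDegree‖ := by
    rw [coeff_map, eq_intCast, coeff_natDegree, Complex.norm_intCast]
    have : 1 ≤ |P.leadingCoeff| := Int.one_le_abs (leadingCoeff_ne_zero.mpr hP)
    exact_mod_cast this
  refine h1.trans (Finset.single_le_sum (f := fun k => ‖(P.map (Int.castRingHom ℂ)).coeff k‖)
    (fun k _ => norm_nonneg _) ?_)
  simp

theorem eval_range (f : ℂ[X]) (θ : ℂ) (j : ℕ) :
    ∑ k ∈ range (f.natDegree + 1), θ ^ (k + j) * f.coeff k = θ ^ j * f.eval θ := by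
  rw [eval_eq_sum_range, Finset.mul_sum]
  refine Finset.sum_congr rfl fun k _ => ?_
  rw [pow_add]; ring

theorem res_bound (f g : ℂ[X]) (θ : ℂ) (hf : 0 < f.natDegree) (hg : 0 < g.natDegree)
    (hfl : 1 ≤ len f) (hgl : 1 ≤ len g) :
    ‖resultant f g‖ ≤ (f.natDegree + g.natDegree : ℕ) *
      (max ‖f.eval θ‖ ‖g.eval θ‖ * (max 1 ‖θ‖) ^ (f.natDegree + g.natDegree)) *
      (len g ^ f.natDegree * len f ^ g.natDegree) := by
  classical
  set p := f.natDegree with hp
  set q := g.natDegree with hq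
  unfold resultant
  set S := sylvester f g p q with hS
  have hn : 0 < p + q := by omega
  set u : Fin (p + q) → ℂ := ∑ k : Fin (p + q), (θ ^ (k : ℕ)) • S k with hu
  have hdet : (S.updateRow ⟨0, hn⟩ u).det = S.det := by
    rw [hu, Matrix.det_updateRow_sum]; simp
  have hcolL : ∀ j : Fin p, ∀ (h : ℕ → ℂ → ℝ) , (∀ k, h k 0 = 0) →
      ∑ i : Fin (p + q), h i (S i (Fin.castAdd q j)) =
        ∑ k ∈ range (q + 1), h (k + j) (g.coeff k) := by
    intro j h h0
    rw [← sum_shift p q j j.2 (fun k => h (k + j) (g.coeff k))]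
    refine Finset.sum_congr rfl fun i _ => ?_
    rw [hS]
    unfold sylvester
    rw [Matrix.of_apply, Fin.addCases_left]
    split_ifs with hi
    · rw [Nat.sub_add_cancel hi.1]
    · exact h0 _
  have hcolR : ∀ j : Fin q, ∀ (h : ℕ → ℂ → ℝ) , (∀ k, h k 0 = 0) →
      ∑ i : Fin (p + q), h i (S i (Fin.natAdd p j)) =
        ∑ k ∈ range (p + 1), h (k + j) (f.coeff k) := by
    intro j h h0
    rw [← sum_shift q p j j.2 (fun k => h (k + j) (f.coeff k))]
    rw [Fin.sum_univ_eq_sum_range (fun i => if i ∈ Set.Icc (j : ℕ) (j + p) then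
      h (i - j + j) (f.coeff (i - j)) else 0) (q + p), add_comm q p,
      ← Fin.sum_univ_eq_sum_range (fun i => if i ∈ Set.Icc (j : ℕ) (j + p) then
      h (i - j + j) (f.coeff (i - j)) else 0) (p + q)]
    refine Finset.sum_congr rfl fun i _ => ?_
    rw [hS]
    unfold sylvester
    rw [Matrix.of_apply, Fin.addCases_right]
    split_ifs with hi
    · rw [Nat.sub_add_cancel hi.1]
    · exact h0 _
  have huL : ∀ j : Fin p, u (Fin.castAdd q j) = θ ^ (j : ℕ) * g.eval θ := by
    intro j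
    rw [hu, Finset.sum_apply, ← eval_range g θ j, ← hq,
      ← sum_shift p q j j.2 (fun k => θ ^ (k + j) * g.coeff k)]
    refine Finset.sum_congr rfl fun i _ => ?_
    rw [Pi.smul_apply, smul_eq_mul, hS]
    unfold sylvester
    rw [Matrix.of_apply, Fin.addCases_left]
    split_ifs with hi
    · rw [Nat.sub_add_cancel hi.1]
    · simp
  have huR : ∀ j : Fin q, u (Fin.natAdd p j) = θ ^ (j : ℕ) * f.eval θ := by
    intro j
    rw [hu, Finset.sum_apply, ← eval_range f θ j, ← hp,
      ← sum_shift q p j j.2 (fun k => θ ^ (k + j) * f.coeff k)]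
    rw [Fin.sum_univ_eq_sum_range (fun i => if i ∈ Set.Icc (j : ℕ) (j + p) then
      θ ^ (i - j + j) * (f.coeff (i - j)) else 0) (q + p), add_comm q p,
      ← Fin.sum_univ_eq_sum_range (fun i => if i ∈ Set.Icc (j : ℕ) (j + p) then
      θ ^ (i - j + j) * (f.coeff (i - j)) else 0) (p + q)]
    refine Finset.sum_congr rfl fun i _ => ?_
    rw [Pi.smul_apply, smul_eq_mul, hS]
    unfold sylvester
    rw [Matrix.of_apply, Fin.addCases_right]
    split_ifs with hi
    · rw [Nat.sub_add_cancel hi.1]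
    · simp
  set μ := max ‖f.eval θ‖ ‖g.eval θ‖ * (max 1 ‖θ‖) ^ (p + q) with hμ
  have hA : (1 : ℝ) ≤ max 1 ‖θ‖ := le_max_left _ _
  have hpw : ∀ j : ℕ, j ≤ p + q → ‖θ‖ ^ j ≤ (max 1 ‖θ‖) ^ (p + q) := by
    intro j hj
    exact (pow_le_pow_left₀ (norm_nonneg _) (le_max_right _ _) j).trans
      (pow_le_pow_right₀ hA hj)
  have hub : ∀ j, ‖u j‖ ≤ μ := by
    intro j
    refine Fin.addCases (fun j => ?_) (fun j => ?_) j
    · rw [huL, norm_mul, norm_pow, mul_comm]
      exact mul_le_mul (le_max_right _ _) (hpw _ (by omega)) (by positivity)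
        ((norm_nonneg _).trans (le_max_left _ _))
    · rw [huR, norm_mul, norm_pow, mul_comm]
      exact mul_le_mul (le_max_left _ _) (hpw _ (by omega)) (by positivity)
        ((norm_nonneg _).trans (le_max_left _ _))
  have h := det_upd hn S u μ hub (fun j => Fin.addCases (fun _ => len g) (fun _ => len f) j)
    (fun j => by
      refine Fin.addCases (fun j => ?_) (fun j => ?_) j
      · rw [Fin.addCases_left, hcolL j (fun _ x => ‖x‖) (fun _ => norm_zero)]
        exact le_rfl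
      · rw [Fin.addCases_right, hcolR j (fun _ x => ‖x‖) (fun _ => norm_zero)]
        exact le_rfl)
    (fun j => by
      refine Fin.addCases (fun j => ?_) (fun j => ?_) j
      · rw [Fin.addCases_left]; exact hgl
      · rw [Fin.addCases_right]; exact hfl)
  rw [hdet, Fin.prod_univ_add] at h
  simpa using h

theorem one_le_res (P Q : ℤ[X]) (hP : Irreducible P) (hQ : Irreducible Q)
    (hPQ : ¬ Associated P Q) (hp : 0 < P.natDegree) (hq : 0 < Q.natDegree) :
    1 ≤ ‖resultant (P.map (Int.castRingHom ℂ)) (Q.map (Int.castRingHom ℂ))‖ := by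
  have hPp := hP.isPrimitive hp.ne'
  have hQp := hQ.isPrimitive hq.ne'
  have hP' := (IsPrimitive.Int.irreducible_iff_irreducible_map_cast hPp).mp hP
  have hcop : IsCoprime (P.map (Int.castRingHom ℚ)) (Q.map (Int.castRingHom ℚ)) := by
    rw [hP'.coprime_iff_not_dvd]
    intro h
    exact hPQ (hP.associated_of_dvd hQ
      ((IsPrimitive.Int.dvd_iff_map_cast_dvd_map_cast P Q hPp).mpr h))
  have h1 := resultant_ne_zero _ _ hcop
  rw [natDegree_map_eq_of_injective (RingHom.injective_int _),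
    natDegree_map_eq_of_injective (RingHom.injective_int _), resultant_map_map] at h1
  have h2 : resultant P Q ≠ 0 := by
    intro h
    rw [h] at h1
    simp at h1
  rw [natDegree_map_eq_of_injective (RingHom.injective_int _),
    natDegree_map_eq_of_injective (RingHom.injective_int _), resultant_map_map, eq_intCast,
    Complex.norm_intCast]
  exact_mod_cast Int.one_le_abs h2

theorem numer (p q : ℕ) (A Mf Mg μ : ℝ) (hp : 0 < p) (hq : 0 < q) (hA : 1 ≤ A) (hMf : 1 ≤ Mf)
    (hMg : 1 ≤ Mg)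
    (h3 : (1 : ℝ) ≤ μ * (((p + q : ℕ) : ℝ) * A ^ (p + q) *
      ((2 ^ q * Mg) ^ p * (2 ^ p * Mf) ^ q))) :
    Real.exp (-((4 + 2 * Real.log A) * (p + Real.log Mf) * (q + Real.log Mg))) ≤ μ := by
  have hlA : 0 ≤ Real.log A := Real.log_nonneg hA
  obtain ⟨K, hK⟩ : ∃ K, K = ((p + q : ℕ) : ℝ) * A ^ (p + q) *
    ((2 ^ q * Mg) ^ p * (2 ^ p * Mf) ^ q) := ⟨_, rfl⟩
  rw [← hK] at h3
  have hMf0 : 0 < Mf := by linarith
  have hMg0 : 0 < Mg := by linarith
  have hA0 : 0 < A := by linarith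
  have hpq : (0 : ℝ) < ((p + q : ℕ) : ℝ) := by
    have : 0 < p + q := by omega
    exact_mod_cast this
  have hKpos : 0 < K := by rw [hK]; positivity
  have hlogK : Real.log K = Real.log ((p + q : ℕ) : ℝ) + (p + q) * Real.log A +
      (p * (q * Real.log 2 + Real.log Mg) + q * (p * Real.log 2 + Real.log Mf)) := by
    rw [hK, Real.log_mul (by positivity) (by positivity), Real.log_mul (by positivity)
      (by positivity), Real.log_mul (by positivity) (by positivity), Real.log_pow, Real.log_pow,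
      Real.log_pow, Real.log_mul (by positivity) (by positivity),
      Real.log_mul (by positivity) (by positivity), Real.log_pow, Real.log_pow]
    push_cast
    ring
  have hp1 : (1 : ℝ) ≤ p := by exact_mod_cast hp
  have hq1 : (1 : ℝ) ≤ q := by exact_mod_cast hq
  have hlf0 : 0 ≤ Real.log Mf := Real.log_nonneg hMf
  have hlg0 : 0 ≤ Real.log Mg := Real.log_nonneg hMg
  have hl1 : Real.log ((p + q : ℕ) : ℝ) ≤ 2 * (p * q) := by
    refine (Real.log_le_sub_one_of_pos hpq).trans ?_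
    push_cast
    nlinarith
  have hl2 : Real.log 2 ≤ 1 := by
    have := Real.log_two_lt_d9; linarith
  have h3' := h3
  clear hK h3
  generalize Real.log A = lA at *
  generalize Real.log Mf = lf at *
  generalize Real.log Mg = lg at *
  generalize (p : ℝ) = x at *
  generalize (q : ℝ) = y at *
  have hlogK2 : Real.log K ≤ (4 + 2 * lA) * (x + lf) * (y + lg) := by
    rw [hlogK]
    have hpq2 : x + y ≤ 2 * (x * y) := by nlinarith
    have e1 : (x + y) * lA ≤ 2 * (x * y) * lA := mul_le_mul_of_nonneg_right hpq2 hlA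
    have hxy : 0 ≤ x * y := by nlinarith
    have e2 : x * y * Real.log 2 ≤ x * y := by nlinarith
    have e3 : 0 ≤ x * lg := mul_nonneg (by linarith) hlg0
    have e4 : 0 ≤ y * lf := mul_nonneg (by linarith) hlf0
    have e5 : 0 ≤ lf * lg := mul_nonneg hlf0 hlg0
    have e6 : (4 + 2 * lA) * (x + lf) * (y + lg) =
      4 * (x * y) + 2 * (x * y) * lA + (4 + 2 * lA) * (x * lg + y * lf + lf * lg) := by ring
    rw [e6]
    have e7 : 0 ≤ lA * (x * lg + y * lf + lf * lg) := mul_nonneg hlA (by linarith)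
    have e8 : (4 + 2 * lA) * (x * lg + y * lf + lf * lg) = 4 * (x * lg + y * lf + lf * lg) +
      2 * (lA * (x * lg + y * lf + lf * lg)) := by ring
    rw [e8]
    linarith
  have h5 : Real.exp (-Real.log K) ≤ μ := by
    rw [Real.exp_neg, Real.exp_log hKpos, inv_le_iff_one_le_mul₀ hKpos]
    exact h3'
  refine le_trans (Real.exp_le_exp.mpr ?_) h5
  linarith

open Pool.Agent.W252 in
theorem coprime_bound (θ : ℂ) : ∃ C : ℝ, 0 ≤ C ∧ ∀ P Q : Polynomial ℤ,
    Irreducible P → Irreducible Q → ¬ Associated P Q → 0 < P.natDegree → 0 < Q.natDegree →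
    Real.exp (-(C * sigma P * sigma Q)) ≤ max ‖aeval θ P‖ ‖aeval θ Q‖ := by
  set A := max 1 ‖θ‖ with hAdef
  have hA : (1 : ℝ) ≤ A := le_max_left _ _
  have hlA : 0 ≤ Real.log A := Real.log_nonneg hA
  refine ⟨4 + 2 * Real.log A, by positivity, fun P Q hP hQ hPQ hp hq => ?_⟩
  have h1 := one_le_res P Q hP hQ hPQ hp hq
  set f := P.map (Int.castRingHom ℂ) with hf
  set g := Q.map (Int.castRingHom ℂ) with hg
  have hfd : f.natDegree = P.natDegree := natDegree_map_eq_of_injective (RingHom.injective_int _) P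
  have hgd : g.natDegree = Q.natDegree := natDegree_map_eq_of_injective (RingHom.injective_int _) Q
  have hfl := one_le_len P hP.ne_zero
  have hgl := one_le_len Q hQ.ne_zero
  rw [← hf] at hfl
  rw [← hg] at hgl
  have h2 := h1.trans (res_bound f g θ (hfd ▸ hp) (hgd ▸ hq) hfl hgl)
  have hef : f.eval θ = aeval θ P := by
    rw [hf, eval_map, aeval_def]; congr 1
  have heg : g.eval θ = aeval θ Q := by
    rw [hg, eval_map, aeval_def]; congr 1
  rw [hfd, hgd, hef, heg] at h2
  have hMf : 1 ≤ f.mahlerMeasure := one_le_mahlerMeasure_of_ne_zero hP.ne_zero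
  have hMg : 1 ≤ g.mahlerMeasure := one_le_mahlerMeasure_of_ne_zero hQ.ne_zero
  set p := P.natDegree with hpdef
  set q := Q.natDegree with hqdef
  set μ := max ‖aeval θ P‖ ‖aeval θ Q‖ with hμ
  have hμ0 : 0 ≤ μ := (norm_nonneg _).trans (le_max_left _ _)
  have hlf : len f ≤ 2 ^ p * f.mahlerMeasure := by rw [← hfd]; exact len_le f
  have hlg : len g ≤ 2 ^ q * g.mahlerMeasure := by rw [← hgd]; exact len_le g
  set Mf := f.mahlerMeasure
  set Mg := g.mahlerMeasure
  have h3 : (1 : ℝ) ≤ μ * (((p + q : ℕ) : ℝ) * A ^ (p + q) *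
      ((2 ^ q * Mg) ^ p * (2 ^ p * Mf) ^ q)) := by
    refine h2.trans ?_
    have h4 : len g ^ p * len f ^ q ≤ (2 ^ q * Mg) ^ p * (2 ^ p * Mf) ^ q := by
      have : 0 ≤ len g := by linarith
      have : 0 ≤ len f := by linarith
      gcongr
    calc ((p + q : ℕ) : ℝ) * (μ * A ^ (p + q)) * (len g ^ p * len f ^ q)
        ≤ ((p + q : ℕ) : ℝ) * (μ * A ^ (p + q)) * ((2 ^ q * Mg) ^ p * (2 ^ p * Mf) ^ q) := by
          gcongr
      _ = _ := by ring
  exact numer p q A Mf Mg μ hp hq hA hMf hMg h3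

end Pool.Agent.W669.GelA1
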