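import Mathlib
set_option autoImplicit false

/-!
Construction of a submultiplicative function on the nonnegative rationals and of a functional
which annihilates an element with infinitely many terms `2^{-k-1} X^{μ_k}`, `μ_k → 0`.
-/

open Finset

namespace Pool.Agent.W669.QNS

/-- the numerators -/
def mm (k D : ℕ) : ℕ := (k + 2) * D + 1

/-- the quotients of consecutive denominators -/
def dd (k D : ℕ) : ℕ := (k + 2) ^ ((D + 1) * mm k D)

/-- the denominators -/
def D : ℕ → ℕ
  | 0 => 1
  | k + 1 => D k * dd k (D k)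

lemma D_succ (k : ℕ) : D (k + 1) = D k * dd k (D k) := rfl

lemma dd_pos (k n : ℕ) : 0 < dd k n := by unfold dd; positivity

lemma D_pos (k : ℕ) : 0 < D k := by
  induction k with
  | zero => exact one_pos
  | succ k ih => rw [D_succ]; exact Nat.mul_pos ih (dd_pos _ _)

lemma mm_pos (k n : ℕ) : 0 < mm k n := by unfold mm; omega

lemma lt_dd (k n : ℕ) : (n + 1) * mm k n < dd k n := by
  unfold dd
  exact Nat.lt_pow_self (by omega)

lemma cop (k n : ℕ) : Nat.Coprime (mm k n) (dd k n) := by
  unfold dd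
  apply Nat.Coprime.pow_right
  unfold mm
  simp

lemma D_dvd_succ (k : ℕ) : D k ∣ D (k + 1) := ⟨_, rfl⟩

lemma D_dvd {k l : ℕ} (h : k ≤ l) : D k ∣ D l := by
  induction h with
  | refl => exact dvd_rfl
  | step _ ih => exact ih.trans (D_dvd_succ _)

lemma two_mul_D_le (k : ℕ) : 2 * D k ≤ D (k + 1) := by
  rw [D_succ, mul_comm]
  apply Nat.mul_le_mul_left
  have h := lt_dd k (D k)
  have h1 := mm_pos k (D k)
  nlinarith

lemma D_mono {k l : ℕ} (h : k ≤ l) : D k ≤ D l := Nat.le_of_dvd (D_pos l) (D_dvd h)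

lemma dvd_D (n : ℕ) (hn : 0 < n) : n ∣ D n := by
  rcases Nat.lt_or_ge n 2 with h | h
  · have : n = 1 := by omega
    subst this; exact one_dvd _
  · obtain ⟨k, rfl⟩ : ∃ k, n = k + 2 := ⟨n - 2, by omega⟩
    have h1 : k + 2 ∣ D (k + 1) := by
      rw [D_succ]
      apply Dvd.dvd.mul_left
      unfold dd
      apply dvd_pow_self
      have := mm_pos k (D k)
      positivity
    exact h1.trans (D_dvd_succ _)

/-- `q` is a multiple of `1 / D k` -/
def Lat (k : ℕ) (q : ℚ) : Prop := ∃ z : ℤ, q * (D k : ℚ) = z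

lemma Dq_pos (k : ℕ) : (0 : ℚ) < D k := by exact_mod_cast D_pos k

lemma Lat.add {k : ℕ} {p q : ℚ} (hp : Lat k p) (hq : Lat k q) : Lat k (p + q) := by
  obtain ⟨a, ha⟩ := hp
  obtain ⟨b, hb⟩ := hq
  exact ⟨a + b, by rw [add_mul, ha, hb]; push_cast; ring⟩

lemma Lat.sub {k : ℕ} {p q : ℚ} (hp : Lat k p) (hq : Lat k q) : Lat k (p - q) := by
  obtain ⟨a, ha⟩ := hp
  obtain ⟨b, hb⟩ := hq
  exact ⟨a - b, by rw [sub_mul, ha, hb]; push_cast; ring⟩

lemma Lat.zero (k : ℕ) : Lat k 0 := ⟨0, by simp⟩

lemma Lat.nsmul {k : ℕ} {p : ℚ} (hp : Lat k p) (n : ℕ) : Lat k (n * p) := by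
  obtain ⟨a, ha⟩ := hp
  exact ⟨n * a, by rw [mul_assoc, ha]; push_cast; ring⟩

lemma Lat.mono {k l : ℕ} (h : k ≤ l) {q : ℚ} (hq : Lat k q) : Lat l q := by
  obtain ⟨a, ha⟩ := hq
  obtain ⟨c, hc⟩ := D_dvd h
  refine ⟨a * c, ?_⟩
  rw [hc]
  push_cast
  rw [← mul_assoc, ha]

lemma lat_den (q : ℚ) : Lat q.den q := by
  obtain ⟨c, hc⟩ := dvd_D q.den q.den_pos
  refine ⟨q.num * c, ?_⟩
  rw [hc]
  push_cast
  have : q * (q.den : ℚ) = q.num := Rat.mul_den_eq_num q
  rw [← mul_assoc, this]

/-- the exponents -/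
def mu (k : ℕ) : ℚ := (mm k (D k) : ℚ) / (D (k + 1) : ℚ)

lemma mu_pos (k : ℕ) : 0 < mu k := by
  unfold mu
  have := mm_pos k (D k)
  have := D_pos (k + 1)
  positivity

lemma lat_mu {k l : ℕ} (h : k < l) : Lat l (mu k) := by
  apply Lat.mono (Nat.succ_le_of_lt h)
  refine ⟨mm k (D k), ?_⟩
  unfold mu
  have := (Dq_pos (k + 1)).ne'
  simp only [Nat.succ_eq_add_one]
  field_simp
  push_cast
  ring

lemma mu_mul (k : ℕ) : mu k * D (k + 1) = mm k (D k) := by
  unfold mu
  have := (Dq_pos (k + 1)).ne'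
  field_simp

lemma one_le_mu_mul (k : ℕ) : 1 ≤ mu k * D (k + 1) := by
  rw [mu_mul]
  exact_mod_cast mm_pos k (D k)

/-- multiples `j μ_k` with `j ≤ D k + 1` are smaller than `1 / D k` -/
lemma mu_small {k j : ℕ} (h : j ≤ D k + 1) : (j : ℚ) * mu k * D k < 1 := by
  have h1 : (j : ℚ) * mu k * D k * dd k (D k) = j * mm k (D k) := by
    rw [← mu_mul, D_succ]; push_cast; ring
  have h2 : (j : ℚ) * mm k (D k) < dd k (D k) := by
    have h3 := lt_dd k (D k)
    have h4 : j * mm k (D k) ≤ (D k + 1) * mm k (D k) := Nat.mul_le_mul_right _ h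
    exact_mod_cast h4.trans_lt h3
  have h5 : (0 : ℚ) < dd k (D k) := by exact_mod_cast dd_pos k (D k)
  by_contra hcon
  push Not at hcon
  nlinarith

/-- a nonzero integer multiple of `μ_k` which is a multiple of `1 / D k` is larger than `1` -/
lemma mu_sep {k : ℕ} {z : ℤ} (h : Lat k (z * mu k)) (h1 : |(z : ℚ)| * mu k ≤ 1) : z = 0 := by
  by_contra hz
  obtain ⟨a, ha⟩ := h
  have h2 : (z * mm k (D k) : ℤ) = a * dd k (D k) := by
    have h3 : (z : ℚ) * mm k (D k) = a * dd k (D k) := by
      rw [← ha, ← mu_mul, D_succ]; push_cast; ring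
    exact_mod_cast h3
  have h4 : (dd k (D k) : ℤ) ∣ z * mm k (D k) := ⟨a, by rw [h2]; ring⟩
  have h5 : IsCoprime (dd k (D k) : ℤ) (mm k (D k) : ℤ) :=
    (Nat.isCoprime_iff_coprime.mpr (cop k (D k))).symm
  have h6 : (dd k (D k) : ℤ) ∣ z := h5.dvd_of_dvd_mul_right h4
  have h7 : (dd k (D k) : ℤ) ≤ |z| := Int.le_of_dvd (abs_pos.mpr hz) ((dvd_abs _ _).mpr h6)
  have h8 : (dd k (D k) : ℚ) ≤ |(z : ℚ)| := by exact_mod_cast h7
  have h9 : (dd k (D k) : ℚ) * mu k * D k = mm k (D k) := by
    rw [← mu_mul, D_succ]; push_cast; ring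
  have h10 : (D k : ℚ) < mm k (D k) := by
    have : D k < mm k (D k) := by unfold mm; nlinarith [D_pos k]
    exact_mod_cast this
  have h11 := mu_pos k
  have h12 := Dq_pos k
  have h13 : (dd k (D k) : ℚ) * mu k ≤ 1 := le_trans (mul_le_mul_of_nonneg_right h8 h11.le) h1
  have h14 : (dd k (D k) : ℚ) * mu k * D k ≤ 1 * D k := mul_le_mul_of_nonneg_right h13 h12.le
  linarith

lemma mu_anti (k : ℕ) : mu (k + 1) < mu k := by
  have h1 := mu_small (k := k + 1) (j := 1) (by omega)
  have h2 := one_le_mu_mul k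
  have h3 := Dq_pos (k + 1)
  push_cast at h1
  by_contra hcon
  push Not at hcon
  nlinarith

/-! ### the semigroups -/

/-- the semigroup generated by `1 / D i` and `μ_p`, `i ≤ p < i + n` -/
def Tm (i : ℕ) : ℕ → ℚ → Prop
  | 0 => fun q => Lat i q ∧ 0 ≤ q
  | n + 1 => fun q => ∃ c : ℕ, Tm i n (q - c * mu (i + n))

lemma Tm_nonneg {i n : ℕ} : ∀ {q : ℚ}, Tm i n q → 0 ≤ q := by
  induction n with
  | zero => exact fun h => h.2
  | succ n ih =>
    rintro q ⟨c, h⟩
    have := ih h
    have h1 := mu_pos (i + n)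
    have h2 : (0 : ℚ) ≤ c * mu (i + n) := by positivity
    linarith

lemma Tm_lat {i n : ℕ} : ∀ {q : ℚ}, Tm i n q → Lat (i + n) q := by
  induction n with
  | zero => exact fun h => h.1
  | succ n ih =>
    rintro q ⟨c, h⟩
    have h1 := (ih h).mono (Nat.le_succ _)
    have h2 := (lat_mu (Nat.lt_succ_self (i + n))).nsmul c
    have h3 := h1.add h2
    rw [sub_add_cancel] at h3
    exact h3

lemma Tm_succ {i n : ℕ} {q : ℚ} (h : Tm i n q) : Tm i (n + 1) q := ⟨0, by simpa using h⟩

lemma Tm_mono {i n n' : ℕ} (hn : n ≤ n') {q : ℚ} (h : Tm i n q) : Tm i n' q := by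
  induction hn with
  | refl => exact h
  | step _ ih => exact Tm_succ ih

lemma Tm_add {i n : ℕ} : ∀ {p q : ℚ}, Tm i n p → Tm i n q → Tm i n (p + q) := by
  induction n with
  | zero => exact fun h h' => ⟨h.1.add h'.1, add_nonneg h.2 h'.2⟩
  | succ n ih =>
    rintro p q ⟨c, h⟩ ⟨c', h'⟩
    refine ⟨c + c', ?_⟩
    have := ih h h'
    convert this using 1
    push_cast
    ring

lemma Tm_zero (i n : ℕ) : Tm i n 0 := Tm_mono (Nat.zero_le n) ⟨Lat.zero i, le_refl _⟩

lemma Tm_shift {i n : ℕ} : ∀ {q : ℚ}, Tm i (n + 1) q → Tm (i + 1) n q := by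
  induction n with
  | zero =>
    rintro q h
    exact ⟨by simpa using Tm_lat h, Tm_nonneg h⟩
  | succ n ih =>
    rintro q ⟨c, h⟩
    refine ⟨c, ?_⟩
    have h1 := ih h
    have e : i + 1 + n = i + (n + 1) := by omega
    rw [e]
    exact h1

/-- the semigroup `S_i` -/
def S (i : ℕ) (q : ℚ) : Prop := ∃ n, Tm i n q

lemma S_succ {i : ℕ} {q : ℚ} (h : S i q) : S (i + 1) q := by
  obtain ⟨n, h⟩ := h
  exact ⟨n, Tm_shift (Tm_succ h)⟩

lemma S_mono {i j : ℕ} (hij : i ≤ j) {q : ℚ} (h : S i q) : S j q := by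
  induction hij with
  | refl => exact h
  | step _ ih => exact S_succ ih

lemma S_add {i : ℕ} {p q : ℚ} (hp : S i p) (hq : S i q) : S i (p + q) := by
  obtain ⟨n, hn⟩ := hp
  obtain ⟨n', hn'⟩ := hq
  exact ⟨max n n', Tm_add (Tm_mono (le_max_left _ _) hn) (Tm_mono (le_max_right _ _) hn')⟩

lemma S_mu (k : ℕ) : S 0 (mu k) := ⟨k + 1, 1, by
  have : mu k - ((1 : ℕ) : ℚ) * mu (0 + k) = 0 := by simp
  rw [this]
  exact Tm_zero _ _⟩

lemma S_of_lat {i : ℕ} {q : ℚ} (h : Lat i q) (h0 : 0 ≤ q) : S i q := ⟨0, h, h0⟩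

lemma S_exists {q : ℚ} (h0 : 0 ≤ q) : ∃ i, S i q := ⟨q.den, S_of_lat (lat_den q) h0⟩

lemma Tm_desc {i n : ℕ} {q : ℚ} (h : Tm i (n + 1) q) (h1 : q ≤ 1) (hl : Lat (i + n) q) :
    Tm i n q := by
  obtain ⟨c, hc⟩ := h
  have h2 := Tm_lat hc
  have h3 := hl.sub h2
  have h4 : q - (q - c * mu (i + n)) = ((c : ℤ) : ℚ) * mu (i + n) := by push_cast; ring
  rw [h4] at h3
  have h5 := Tm_nonneg hc
  have h6 : (c : ℤ) = 0 := mu_sep h3 (by
    rw [abs_of_nonneg (by positivity)]
    push_cast
    linarith)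
  have h7 : c = 0 := by exact_mod_cast h6
  subst h7
  simpa using hc

lemma Tm_desc' {i n : ℕ} (t : ℕ) {q : ℚ} (h : Tm i (n + t) q) (h1 : q ≤ 1) (hl : Lat (i + n) q) :
    Tm i n q := by
  induction t with
  | zero => exact h
  | succ t ih => exact ih (Tm_desc h h1 (hl.mono (by omega)))

lemma S_desc {i n : ℕ} {q : ℚ} (h : S i q) (h1 : q ≤ 1) (hl : Lat (i + n) q) : Tm i n q := by
  obtain ⟨n', h⟩ := h
  rcases le_total n' n with h2 | h2
  · exact Tm_mono h2 h
  · obtain ⟨t, rfl⟩ := Nat.exists_eq_add_of_le h2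
    exact Tm_desc' t h h1 hl

lemma claimA {k j : ℕ} {s : ℚ} (hj : 1 ≤ j) (hl : Lat k (s + j * mu k))
    (h1 : s + j * mu k ≤ 1) : ¬ S k s := by
  intro hS
  have hm := mu_pos k
  have hj0 : (0 : ℚ) ≤ j * mu k := by positivity
  have h2 : Lat (k + 1) s := by
    have h3 := (hl.mono (Nat.le_succ k)).sub ((lat_mu (Nat.lt_succ_self k)).nsmul j)
    simpa using h3
  obtain ⟨c, hc, hc0⟩ := S_desc (n := 1) hS (by linarith) h2
  change Lat k (s - c * mu k) at hc
  change 0 ≤ s - c * mu k at hc0
  have h3 := hl.sub hc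
  have h4 : s + j * mu k - (s - c * mu k) = (((c + j : ℕ) : ℤ) : ℚ) * mu k := by push_cast; ring
  rw [h4] at h3
  have h6 : ((c + j : ℕ) : ℤ) = 0 := mu_sep h3 (by
    rw [abs_of_nonneg (by positivity)]
    push_cast
    linarith)
  omega

lemma claimB {k i j : ℕ} {s : ℚ} (h0 : 0 ≤ s) (hl : Lat k s) (h1 : s + j * mu k ≤ 1)
    (hS : S i (s + j * mu k)) : S i s := by
  have hm := mu_pos k
  rcases le_total k i with h | h
  · exact S_of_lat (hl.mono h) h0
  · obtain ⟨n, rfl⟩ := Nat.exists_eq_add_of_le h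
    have h2 : Lat (i + (n + 1)) (s + j * mu (i + n)) :=
      (hl.mono (by omega)).add ((lat_mu (by omega)).nsmul j)
    obtain ⟨c, hc⟩ := S_desc hS h1 h2
    have h3 := hl.sub (Tm_lat hc)
    have h4 : s - (s + j * mu (i + n) - c * mu (i + n)) = (((c : ℤ) - j : ℤ) : ℚ) * mu (i + n) := by
      push_cast; ring
    rw [h4] at h3
    have h5 := Tm_nonneg hc
    have hj0 : (0 : ℚ) ≤ j * mu (i + n) := by positivity
    have hc0 : (0 : ℚ) ≤ c * mu (i + n) := by positivity
    have h6 : ((c : ℤ) - j : ℤ) = 0 := mu_sep h3 (by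
      have h7 : |(((c : ℤ) - j : ℤ) : ℚ)| * mu (i + n) = |(((c : ℤ) - j : ℤ) : ℚ) * mu (i + n)| := by
        rw [abs_mul, abs_of_pos hm]
      rw [h7, abs_le]
      push_cast
      constructor
      · rw [sub_mul]; linarith
      · rw [sub_mul]; linarith)
    have h8 : c = j := by omega
    subst h8
    exact ⟨n, by simpa using hc⟩

/-! ### the functional -/

/-- the coefficients -/
noncomputable def lam (k : ℕ) : ℝ := (1 / 2) ^ (k + 1)

lemma lam_pos (k : ℕ) : 0 < lam k := by unfold lam; positivity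

lemma sum_lam (k : ℕ) : ∑ i ∈ range k, lam i = 1 - (1 / 2) ^ k := by
  induction k with
  | zero => simp
  | succ k ih => rw [sum_range_succ, ih, lam]; ring

lemma sum_lam_le (k : ℕ) : ∑ i ∈ range k, lam i ≤ 1 := by
  rw [sum_lam]
  have : (0 : ℝ) ≤ (1 / 2) ^ k := by positivity
  linarith

/-- the operator of the first `k` terms -/
noncomputable def R (k : ℕ) (g : ℚ → ℝ) : ℚ → ℝ := fun s =>
  if 0 ≤ s then ∑ i ∈ range k, lam i * g (s + mu i) else 0

/-- the functionals -/
noncomputable def phi : ℕ → ℚ → ℝ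
  | 0 => fun s => if s = 1 then 1 else 0
  | k + 1 => fun s => ∑ j ∈ range (D k + 1),
      (-(2 : ℝ) ^ (k + 1)) ^ j * ((R k)^[j] (phi k)) (s - j * mu k)

/-- supported on the multiples of `1 / D k` in `[0, 1 - l / D k]` -/
def Good (k l : ℕ) (g : ℚ → ℝ) : Prop :=
  ∀ s, g s ≠ 0 → Lat k s ∧ 0 ≤ s ∧ (s * D k + l : ℚ) ≤ D k

lemma R_good {k l : ℕ} {g : ℚ → ℝ} (hg : Good k l g) : Good k (l + 1) (R k g) := by
  intro s hs
  unfold R at hs
  split_ifs at hs with h0
  · obtain ⟨i, hi, hne⟩ := exists_ne_zero_of_sum_ne_zero hs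
    have hne' : g (s + mu i) ≠ 0 := fun h => hne (by rw [h, mul_zero])
    obtain ⟨h1, h2, h3⟩ := hg _ hne'
    rw [mem_range] at hi
    refine ⟨?_, h0, ?_⟩
    · have := h1.sub (lat_mu hi)
      simpa using this
    · have h4 : 1 ≤ mu i * D k := by
        have h5 := one_le_mu_mul i
        have h6 : (D (i + 1) : ℚ) ≤ D k := by exact_mod_cast D_mono hi
        have h7 := mu_pos i
        nlinarith
      push_cast
      nlinarith
  · exact absurd rfl hs

lemma iter_good {k : ℕ} {g : ℚ → ℝ} (hg : Good k 0 g) (l : ℕ) : Good k l ((R k)^[l] g) := by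
  induction l with
  | zero => exact hg
  | succ l ih =>
    rw [Function.iterate_succ_apply']
    exact R_good ih

lemma phi_good (k : ℕ) : Good k 0 (phi k) := by
  induction k with
  | zero =>
    intro s hs
    have h1 : s = 1 := by
      by_contra h
      exact hs (if_neg h)
    subst h1
    exact ⟨⟨1, by simp [D]⟩, by norm_num, by simp [D]⟩
  | succ k ih =>
    intro s hs
    obtain ⟨j, hj, hne⟩ := exists_ne_zero_of_sum_ne_zero hs
    have hne' := right_ne_zero_of_mul hne
    obtain ⟨h1, h2, h3⟩ := iter_good ih j _ hne'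
    rw [mem_range] at hj
    have hm := mu_pos k
    have hj0 : (0 : ℚ) ≤ j * mu k := by positivity
    have h4 : s - j * mu k + j * mu k = s := by ring
    refine ⟨?_, by linarith, ?_⟩
    · have h5 := (h1.mono (Nat.le_succ k)).add ((lat_mu (Nat.lt_succ_self k)).nsmul j)
      rw [h4] at h5
      exact h5
    · have h5 : s ≤ 1 := by
        have h6 : (s - j * mu k) * D k + j ≤ D k := h3
        have h7 : mu k * D k < 1 := by
          have := mu_small (k := k) (j := 1) (by omega)
          simpa using this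
        have h8 : (j : ℚ) * (mu k * D k) ≤ j := by
          have : (0 : ℚ) ≤ j := by positivity
          nlinarith
        have h9 : s * D k ≤ 1 * D k := by nlinarith
        exact le_of_mul_le_mul_right h9 (Dq_pos k)
      have h6 := Dq_pos (k + 1)
      push_cast
      nlinarith

lemma Good.le_one {k l : ℕ} {g : ℚ → ℝ} (hg : Good k l g) {s : ℚ} (hs : g s ≠ 0) : s ≤ 1 := by
  obtain ⟨-, -, h⟩ := hg s hs
  have h1 := Dq_pos k
  have h2 : (0 : ℚ) ≤ l := by positivity
  have h9 : s * D k ≤ 1 * D k := by linarith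
  exact le_of_mul_le_mul_right h9 h1

/-- there is no multiple of `1 / D k` in `(-1 / D k, 0)` -/
lemma no_lat {k : ℕ} {s : ℚ} (h : Lat k s) (h0 : s < 0) (h1 : -1 < s * D k) : False := by
  obtain ⟨z, hz⟩ := h
  have h2 := Dq_pos k
  rw [hz] at h1
  have h3 : (z : ℚ) < 0 := by
    rw [← hz]
    exact mul_neg_of_neg_of_pos h0 h2
  have h4 : -1 < z := by exact_mod_cast h1
  have h5 : z < 0 := by exact_mod_cast h3
  omega

lemma R_comm {k l j : ℕ} {g : ℚ → ℝ} (hg : Good k l g) (hj : j ≤ D k) (s : ℚ) :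
    R k (fun t => g (t - j * mu k)) s = R k g (s - j * mu k) := by
  have hm := mu_pos k
  have hj0 : (0 : ℚ) ≤ j * mu k := by positivity
  unfold R
  by_cases h0 : 0 ≤ s
  · by_cases h1 : 0 ≤ s - j * mu k
    · rw [if_pos h0, if_pos h1]
      apply sum_congr rfl
      intro i _
      congr 2
      ring
    · rw [if_pos h0, if_neg h1]
      apply sum_eq_zero
      intro i hi
      rw [mem_range] at hi
      by_contra hne
      have hne' := right_ne_zero_of_mul hne
      obtain ⟨h2, -, -⟩ := hg _ hne'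
      have h3 := h2.sub (lat_mu hi)
      have h4 : s + mu i - j * mu k - mu i = s - j * mu k := by ring
      rw [h4] at h3
      refine no_lat h3 (not_le.mp h1) ?_
      have h5 := mu_small (k := k) (j := j) (by omega)
      have h6 := Dq_pos k
      nlinarith
  · rw [if_neg h0, if_neg (by linarith)]

lemma R_add_sum {k : ℕ} {n : ℕ} (c : ℕ → ℝ) (g : ℕ → ℚ → ℝ) (s : ℚ) :
    R k (fun t => ∑ j ∈ range n, c j * g j t) s = ∑ j ∈ range n, c j * R k (g j) s := by
  unfold R
  by_cases h0 : 0 ≤ s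
  · simp only [if_pos h0, mul_sum]
    rw [sum_comm]
    apply sum_congr rfl
    intro j _
    apply sum_congr rfl
    intro i _
    ring
  · simp only [if_neg h0, mul_zero, sum_const_zero]

lemma R_succ {k : ℕ} (g : ℚ → ℝ) {s : ℚ} (h0 : 0 ≤ s) :
    R (k + 1) g s = R k g s + lam k * g (s + mu k) := by
  unfold R
  rw [if_pos h0, if_pos h0, sum_range_succ]

/-- the main identity -/
lemma R_phi {k : ℕ} {s : ℚ} (h0 : 0 ≤ s) :
    R (k + 1) (phi (k + 1)) s = lam k * phi k (s + mu k) := by
  rw [R_succ _ h0]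
  set G : ℕ → ℚ → ℝ := fun j => (R k)^[j] (phi k) with hG
  have hGood : ∀ j, Good k j (G j) := fun j => iter_good (phi_good k) j
  set c : ℕ → ℝ := fun j => (-(2 : ℝ) ^ (k + 1)) ^ j with hc
  have e1 : R k (phi (k + 1)) s = ∑ j ∈ range (D k + 1), c j * G (j + 1) (s - j * mu k) := by
    have : phi (k + 1) = fun t => ∑ j ∈ range (D k + 1), c j * (fun t => G j (t - j * mu k)) t := rfl
    rw [this, R_add_sum]
    apply sum_congr rfl
    intro j hj
    rw [mem_range] at hj
    rw [R_comm (hGood j) (by omega)]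
    simp only [hG]
    rw [Function.iterate_succ_apply']
  have e2 : lam k * phi (k + 1) (s + mu k) = lam k * phi k (s + mu k) -
      ∑ j ∈ range (D k), c j * G (j + 1) (s - j * mu k) := by
    have : phi (k + 1) (s + mu k) = ∑ j ∈ range (D k + 1), c j * G j (s + mu k - j * mu k) := rfl
    rw [this, sum_range_succ', mul_add, mul_sum, sub_eq_add_neg (lam k * phi k (s + mu k)),
      ← sum_neg_distrib, add_comm]
    congr 1
    · simp [hc, hG]
    · apply sum_congr rfl
      intro j _
      have h1 : lam k * c (j + 1) = - c j := by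
        simp only [hc, lam, pow_succ]
        have : ((1 : ℝ) / 2) ^ k * 2 ^ k = 1 := by rw [← mul_pow]; norm_num
        linear_combination (-(-(2 ^ k * 2 : ℝ)) ^ j) * this
      have h2 : s + mu k - ((j + 1 : ℕ) : ℚ) * mu k = s - j * mu k := by push_cast; ring
      rw [h2, ← mul_assoc, h1]
      ring
  rw [e1, e2, sum_range_succ]
  have h3 : G (D k + 1) (s - D k * mu k) = 0 := by
    by_contra hne
    obtain ⟨-, h4, h5⟩ := hGood _ _ hne
    have h6 := Dq_pos k
    push_cast at h5
    nlinarith [mul_nonneg h4 h6.le]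
  rw [h3]
  ring

/-! ### the weight -/

/-- the values of the weight on `[0,1]` -/
noncomputable def K (k : ℕ) : ℝ := 4 ^ ((k + 1) * D k)

open Classical in
/-- the level of `q` -/
noncomputable def b (q : ℚ) : ℕ := sInf {i | S i q}

/-- the weight -/
noncomputable def om (q : ℚ) : ℝ := if q ≤ 1 then K (b q) else Real.exp (-(q : ℝ) ^ 2)

lemma K_mono {k l : ℕ} (h : k ≤ l) : K k ≤ K l := by
  unfold K
  apply pow_le_pow_right₀ (by norm_num)
  exact Nat.mul_le_mul (by omega) (D_mono h)

lemma one_le_K (k : ℕ) : 1 ≤ K k := by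
  unfold K
  exact one_le_pow₀ (by norm_num)

lemma S_b {q : ℚ} (h0 : 0 ≤ q) : S (b q) q := Nat.sInf_mem (S_exists h0)

lemma b_le {q : ℚ} {i : ℕ} (h : S i q) : b q ≤ i := Nat.sInf_le h

lemma lt_b {q : ℚ} {i : ℕ} (h0 : 0 ≤ q) (h : ¬ S i q) : i < b q := by
  by_contra hcon
  exact h (S_mono (not_lt.mp hcon) (S_b h0))

lemma om_pos (q : ℚ) : 0 < om q := by
  unfold om
  split_ifs
  · linarith [one_le_K (b q)]
  · exact Real.exp_pos _

lemma one_le_om {q : ℚ} (h : q ≤ 1) : 1 ≤ om q := by
  unfold om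
  rw [if_pos h]
  exact one_le_K _

lemma om_le_one {q : ℚ} (h : 1 < q) : om q ≤ 1 := by
  unfold om
  rw [if_neg (not_le.mpr h)]
  rw [Real.exp_le_one_iff]
  nlinarith [sq_nonneg (q : ℝ)]

lemma om_add {p q : ℚ} (hp : 0 ≤ p) (hq : 0 ≤ q) : om (p + q) ≤ om p * om q := by
  rcases le_or_gt (p + q) 1 with h | h
  · have h1 : p ≤ 1 := by linarith
    have h2 : q ≤ 1 := by linarith
    have h3 := one_le_K (b p)
    have h4 := one_le_K (b q)
    unfold om
    rw [if_pos h, if_pos h1, if_pos h2]
    rcases le_total (b p) (b q) with h5 | h5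
    · have h6 : b (p + q) ≤ b q := b_le (S_add (S_mono h5 (S_b hp)) (S_b hq))
      have h7 := K_mono h6
      nlinarith
    · have h6 : b (p + q) ≤ b p := b_le (S_add (S_b hp) (S_mono h5 (S_b hq)))
      have h7 := K_mono h6
      nlinarith
  · rcases le_or_gt p 1 with h1 | h1
    · rcases le_or_gt q 1 with h2 | h2
      · have h3 := one_le_om h1
        have h4 := one_le_om h2
        have h5 := om_le_one h
        nlinarith
      · have h3 := one_le_om h1
        have h4 : om (p + q) ≤ om q := by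
          unfold om
          rw [if_neg (not_le.mpr h), if_neg (not_le.mpr h2)]
          apply Real.exp_le_exp.mpr
          have : (0 : ℝ) ≤ p := by exact_mod_cast hp
          have : (0 : ℝ) ≤ q := by exact_mod_cast hq
          push_cast
          nlinarith
        have h5 := om_pos q
        nlinarith
    · rcases le_or_gt q 1 with h2 | h2
      · have h3 := one_le_om h2
        have h4 : om (p + q) ≤ om p := by
          unfold om
          rw [if_neg (not_le.mpr h), if_neg (not_le.mpr h1)]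
          apply Real.exp_le_exp.mpr
          have : (0 : ℝ) ≤ p := by exact_mod_cast hp
          have : (0 : ℝ) ≤ q := by exact_mod_cast hq
          push_cast
          nlinarith
        have h5 := om_pos p
        nlinarith
      · unfold om
        rw [if_neg (not_le.mpr h), if_neg (not_le.mpr h1), if_neg (not_le.mpr h2), ← Real.exp_add]
        apply Real.exp_le_exp.mpr
        have : (0 : ℝ) ≤ p := by exact_mod_cast hp
        have : (0 : ℝ) ≤ q := by exact_mod_cast hq
        push_cast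
        nlinarith

lemma mu_lt_one (k : ℕ) : mu k < 1 := by
  have h := mu_small (k := k) (j := 1) (by omega)
  have h1 : (1 : ℚ) ≤ D k := by exact_mod_cast D_pos k
  have h2 := mu_pos k
  push_cast at h
  nlinarith

lemma om_mu (k : ℕ) : om (mu k) ≤ 4 := by
  unfold om
  rw [if_pos (mu_lt_one k).le]
  have h1 : b (mu k) = 0 := Nat.le_zero.mp (b_le (S_mu k))
  rw [h1]
  simp [K, D]

/-! ### bounds -/

lemma R_bound {k : ℕ} {g : ℚ → ℝ} {M : ℝ} (hM : 0 ≤ M) (hg : ∀ s, |g s| ≤ M) (s : ℚ) :
    |R k g s| ≤ M := by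
  unfold R
  split_ifs
  · calc |∑ i ∈ range k, lam i * g (s + mu i)| ≤ ∑ i ∈ range k, |lam i * g (s + mu i)| :=
          abs_sum_le_sum_abs _ _
      _ ≤ ∑ i ∈ range k, lam i * M := by
          apply sum_le_sum
          intro i _
          rw [abs_mul, abs_of_pos (lam_pos i)]
          exact mul_le_mul_of_nonneg_left (hg _) (lam_pos i).le
      _ = (∑ i ∈ range k, lam i) * M := by rw [sum_mul]
      _ ≤ 1 * M := mul_le_mul_of_nonneg_right (sum_lam_le k) hM
      _ = M := one_mul M
  · simpa using hM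

lemma iter_bound {k : ℕ} {g : ℚ → ℝ} {M : ℝ} (hM : 0 ≤ M) (hg : ∀ s, |g s| ≤ M) (l : ℕ) :
    ∀ s, |(R k)^[l] g s| ≤ M := by
  induction l with
  | zero => exact hg
  | succ l ih =>
    intro s
    rw [Function.iterate_succ_apply']
    exact R_bound hM ih s

lemma phi_bound (k : ℕ) : ∀ s, |phi k s| ≤ 2 ^ ((k + 1) * D k) := by
  induction k with
  | zero =>
    intro s
    unfold phi
    split_ifs
    · rw [abs_one]; exact one_le_pow₀ (by norm_num)
    · rw [abs_zero]; positivity
  | succ k ih =>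
    intro s
    have h1 : |phi (k + 1) s| ≤ ∑ j ∈ range (D k + 1), ((2 : ℝ) ^ (k + 1)) ^ j *
        2 ^ ((k + 1) * D k) := by
      refine (abs_sum_le_sum_abs _ _).trans (sum_le_sum fun j _ => ?_)
      rw [abs_mul, abs_pow, abs_neg, abs_of_pos (by positivity : (0 : ℝ) < 2 ^ (k + 1))]
      exact mul_le_mul_of_nonneg_left (iter_bound (by positivity) ih j _) (by positivity)
    have h2 : ∀ (x : ℝ) (n : ℕ), 2 ≤ x → ∑ j ∈ range (n + 1), x ^ j ≤ 2 * x ^ n := by
      intro x n hx
      induction n with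
      | zero => simp
      | succ n ihn =>
        rw [sum_range_succ]
        have : (0 : ℝ) < x ^ n := by positivity
        rw [pow_succ]
        nlinarith
    rw [← sum_mul] at h1
    have h3 := h2 (2 ^ (k + 1)) (D k) (by
      rw [pow_succ]; nlinarith [one_le_pow₀ (n := k) (by norm_num : (1 : ℝ) ≤ 2)])
    have h4 : (0 : ℝ) < 2 ^ ((k + 1) * D k) := by positivity
    calc |phi (k + 1) s| ≤ (2 * (2 ^ (k + 1)) ^ D k) * 2 ^ ((k + 1) * D k) :=
          h1.trans (mul_le_mul_of_nonneg_right h3 h4.le)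
      _ = 2 ^ (1 + ((k + 1) * D k + (k + 1) * D k)) := by
          rw [pow_add 2 1, pow_add 2 ((k + 1) * D k), pow_mul, pow_one, mul_assoc]
      _ ≤ 2 ^ ((k + 1 + 1) * D (k + 1)) := by
          apply pow_le_pow_right₀ (by norm_num)
          have h5 := two_mul_D_le k
          have h6 := D_pos k
          nlinarith

/-- the property of the places where the powers of `R (k+1)` do not kill `phi (k+1)` -/
def Bad (k : ℕ) (s : ℚ) : Prop := 0 ≤ s ∧ ∃ j : ℕ, 1 ≤ j ∧ Lat k (s + j * mu k) ∧ s + j * mu k ≤ 1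

lemma bad_iter (k l : ℕ) : ∀ s, (R (k + 1))^[l + 1] (phi (k + 1)) s ≠ 0 → Bad k s := by
  induction l with
  | zero =>
    intro s hs
    rw [zero_add, Function.iterate_one] at hs
    by_cases h0 : 0 ≤ s
    · rw [R_phi h0] at hs
      have h1 := right_ne_zero_of_mul hs
      obtain ⟨h2, -, -⟩ := phi_good k _ h1
      have h3 := (phi_good k).le_one h1
      exact ⟨h0, 1, le_rfl, by simpa using h2, by simpa using h3⟩
    · exact absurd (if_neg h0) hs
  | succ l ih =>
    intro s hs
    rw [Function.iterate_succ_apply'] at hs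
    by_cases h0 : 0 ≤ s
    · rw [R, if_pos h0] at hs
      obtain ⟨i, hi, hne⟩ := exists_ne_zero_of_sum_ne_zero hs
      have hne' := right_ne_zero_of_mul hne
      obtain ⟨h1, j, hj, h2, h3⟩ := ih _ hne'
      rw [mem_range] at hi
      rcases Nat.lt_or_ge i k with hik | hik
      · refine ⟨h0, j, hj, ?_, ?_⟩
        · have h4 := h2.sub (lat_mu hik)
          have h5 : s + mu i + j * mu k - mu i = s + j * mu k := by ring
          rwa [h5] at h4
        · have := mu_pos i
          linarith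
      · have : i = k := by omega
        subst this
        refine ⟨h0, j + 1, by omega, ?_, ?_⟩
        · have h5 : s + mu i + j * mu i = s + ((j + 1 : ℕ) : ℚ) * mu i := by push_cast; ring
          rwa [h5] at h2
        · push_cast
          linarith
    · exact absurd (if_neg h0) hs

lemma iter_phi_bound (k l : ℕ) (s : ℚ) :
    |(R (k + 1))^[l + 1] (phi (k + 1)) s| ≤ 2 ^ ((k + 1) * D k) := by
  rw [Function.iterate_succ_apply]
  apply iter_bound (by positivity)
  intro t
  by_cases h0 : 0 ≤ t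
  · rw [R_phi h0, abs_mul, abs_of_pos (lam_pos k)]
    have h1 : lam k ≤ 1 := by
      unfold lam
      exact pow_le_one₀ (by norm_num) (by norm_num)
    have h2 := phi_bound k (t + mu k)
    have h3 := lam_pos k
    have h4 := abs_nonneg (phi k (t + mu k))
    nlinarith
  · have : R (k + 1) (phi (k + 1)) t = 0 := if_neg h0
    rw [this, abs_zero]
    positivity

lemma main_bound (k : ℕ) : ∀ (l : ℕ) (s : ℚ), 0 ≤ s → s ≤ 1 →
    |(R k)^[l] (phi k) s| ≤ (1 / 2) ^ ((k + 1) * l) * om s := by
  induction k with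
  | zero =>
    intro l s h0 h1
    cases l with
    | zero =>
      have h2 := one_le_om h1
      have h3 : |phi 0 s| ≤ 1 := by
        unfold phi
        split_ifs <;> simp
      simpa using h3.trans h2
    | succ l =>
      have h2 : (R 0)^[l + 1] (phi 0) s = 0 := by
        rw [Function.iterate_succ_apply']
        simp [R]
      rw [h2, abs_zero]
      have := om_pos s
      positivity
  | succ k ih =>
    intro l s h0 h1
    cases l with
    | zero =>
      rw [mul_zero, pow_zero, one_mul, Function.iterate_zero, id]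
      by_cases hz : ∃ j ∈ range (D k + 1), ((R k)^[j] (phi k)) (s - j * mu k) ≠ 0
      · obtain ⟨j, hj, hne⟩ := hz
        have hgood := iter_good (phi_good k) j _ hne
        have hle := (iter_good (phi_good k) j).le_one hne
        rw [mem_range] at hj
        have hm := mu_pos k
        have e : phi (k + 1) s = (-(2 : ℝ) ^ (k + 1)) ^ j * ((R k)^[j] (phi k)) (s - j * mu k) := by
          change ∑ j ∈ range (D k + 1), _ = _
          apply sum_eq_single_of_mem j (mem_range.mpr hj)
          intro i hi hij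
          rw [mem_range] at hi
          by_contra hne2
          obtain ⟨h5, -, -⟩ := iter_good (phi_good k) i _ (right_ne_zero_of_mul hne2)
          have h6 := hgood.1.sub h5
          have h7 : s - j * mu k - (s - i * mu k) = (((i : ℤ) - j : ℤ) : ℚ) * mu k := by
            push_cast; ring
          rw [h7] at h6
          have h8 : ((i : ℤ) - j : ℤ) = 0 := mu_sep h6 (by
            have h9 : |(((i : ℤ) - j : ℤ) : ℚ)| * mu k = |(((i : ℤ) - j : ℤ) : ℚ) * mu k| := by
              rw [abs_mul, abs_of_pos hm]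
            have ha := mu_small (k := k) (j := i) (by omega)
            have hb := mu_small (k := k) (j := j) (by omega)
            have hc : (1 : ℚ) ≤ D k := by exact_mod_cast D_pos k
            have hi0 : (0 : ℚ) ≤ i * mu k := by positivity
            have hj0 : (0 : ℚ) ≤ j * mu k := by positivity
            have hi1 : (i : ℚ) * mu k ≤ 1 := by nlinarith
            have hj1 : (j : ℚ) * mu k ≤ 1 := by nlinarith
            rw [h9, abs_le]
            push_cast
            constructor
            · rw [sub_mul]; linarith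
            · rw [sub_mul]; linarith)
          omega
        have h2 := ih j (s - j * mu k) hgood.2.1 hle
        have h3 : om (s - j * mu k) ≤ om s := by
          unfold om
          rw [if_pos hle, if_pos h1]
          apply K_mono
          apply b_le
          have h4 : s - j * mu k + j * mu k = s := by ring
          apply claimB hgood.2.1 hgood.1 (by rw [h4]; exact h1)
          rw [h4]
          exact S_b h0
        rw [e, abs_mul, abs_pow, abs_neg, abs_of_pos (by positivity : (0 : ℝ) < 2 ^ (k + 1))]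
        have h4 : ((2 : ℝ) ^ (k + 1)) ^ j * (1 / 2) ^ ((k + 1) * j) = 1 := by
          rw [← pow_mul, ← mul_pow]; norm_num
        calc ((2 : ℝ) ^ (k + 1)) ^ j * |((R k)^[j] (phi k)) (s - j * mu k)|
            ≤ ((2 : ℝ) ^ (k + 1)) ^ j * ((1 / 2) ^ ((k + 1) * j) * om (s - j * mu k)) :=
              mul_le_mul_of_nonneg_left h2 (by positivity)
          _ = om (s - j * mu k) := by rw [← mul_assoc, h4, one_mul]
          _ ≤ om s := h3
      · push Not at hz
        have e : phi (k + 1) s = 0 := by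
          change ∑ j ∈ range (D k + 1), _ = _
          apply sum_eq_zero
          intro j hj
          rw [hz j hj, mul_zero]
        rw [e, abs_zero]
        exact (om_pos s).le
    | succ l =>
      by_cases hne : (R (k + 1))^[l + 1] (phi (k + 1)) s = 0
      · rw [hne, abs_zero]
        have := om_pos s
        positivity
      · obtain ⟨-, j, hj, h2, h3⟩ := bad_iter k l s hne
        have h4 := claimA hj h2 h3
        have h5 : k + 1 ≤ b s := lt_b h0 h4
        have h6 : K (k + 1) ≤ om s := by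
          unfold om
          rw [if_pos h1]
          exact K_mono h5
        obtain ⟨-, -, h7⟩ := iter_good (phi_good (k + 1)) (l + 1) s hne
        have h8 : ((l + 1 : ℕ) : ℚ) ≤ D (k + 1) := by
          have := Dq_pos (k + 1)
          nlinarith [mul_nonneg h0 this.le]
        have h9 : l + 1 ≤ D (k + 1) := by exact_mod_cast h8
        have h10 := iter_phi_bound k l s
        have h11 : (1 : ℝ) / 2 ^ ((k + 1 + 1) * D (k + 1)) ≤ (1 / 2) ^ ((k + 1 + 1) * (l + 1)) := by
          rw [one_div, ← inv_pow, one_div]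
          exact pow_le_pow_of_le_one (by norm_num) (by norm_num) (Nat.mul_le_mul_left _ h9)
        have h12 : K (k + 1) = 2 ^ ((k + 1 + 1) * D (k + 1)) * 2 ^ ((k + 1 + 1) * D (k + 1)) := by
          unfold K
          rw [← mul_pow]; norm_num
        have h13 : (2 : ℝ) ^ ((k + 1) * D k) ≤ 2 ^ ((k + 1 + 1) * D (k + 1)) := by
          apply pow_le_pow_right₀ (by norm_num)
          exact Nat.mul_le_mul (by omega) (D_mono (by omega))
        have h14 : (0 : ℝ) < 2 ^ ((k + 1 + 1) * D (k + 1)) := by positivity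
        calc |(R (k + 1))^[l + 1] (phi (k + 1)) s| ≤ 2 ^ ((k + 1) * D k) := h10
          _ ≤ 2 ^ ((k + 1 + 1) * D (k + 1)) := h13
          _ = 1 / 2 ^ ((k + 1 + 1) * D (k + 1)) * K (k + 1) := by rw [h12]; field_simp
          _ ≤ (1 / 2) ^ ((k + 1 + 1) * (l + 1)) * K (k + 1) :=
              mul_le_mul_of_nonneg_right h11 (by linarith [one_le_K (k + 1)])
          _ ≤ (1 / 2) ^ ((k + 1 + 1) * (l + 1)) * om s :=
              mul_le_mul_of_nonneg_left h6 (by positivity)

/-! ### the limit functional -/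

lemma phi_stable {k : ℕ} {s : ℚ} (h : Lat k s) : phi (k + 1) s = phi k s := by
  change ∑ j ∈ range (D k + 1), _ = _
  rw [sum_eq_single_of_mem 0 (mem_range.mpr (by omega))]
  · simp
  · intro j hj hj0
    rw [mem_range] at hj
    by_contra hne
    obtain ⟨h1, -, -⟩ := iter_good (phi_good k) j _ (right_ne_zero_of_mul hne)
    have h2 := h.sub h1
    have h3 : s - (s - j * mu k) = ((j : ℤ) : ℚ) * mu k := by push_cast; ring
    rw [h3] at h2
    have hm := mu_pos k
    have ha := mu_small (k := k) (j := j) (by omega)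
    have hc : (1 : ℚ) ≤ D k := by exact_mod_cast D_pos k
    have hi0 : (0 : ℚ) ≤ j * mu k := by positivity
    have h4 : (j : ℤ) = 0 := mu_sep h2 (by
      rw [abs_of_nonneg (by positivity)]
      push_cast
      nlinarith)
    omega

lemma phi_stable' {k l : ℕ} (hkl : k ≤ l) {s : ℚ} (h : Lat k s) : phi l s = phi k s := by
  induction hkl with
  | refl => rfl
  | step hkm ih => rw [phi_stable (h.mono hkm), ih]

/-- the limit functional -/
noncomputable def Phi (s : ℚ) : ℝ := phi s.den s

lemma Phi_eq {k : ℕ} {s : ℚ} (h : Lat k s) : Phi s = phi k s := by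
  unfold Phi
  rw [← phi_stable' (le_max_left k s.den) h, ← phi_stable' (le_max_right k s.den) (lat_den s)]

lemma Phi_le {s : ℚ} (h0 : 0 ≤ s) : |Phi s| ≤ om s := by
  rcases le_or_gt s 1 with h1 | h1
  · have h := main_bound s.den 0 s h0 h1
    rw [mul_zero, pow_zero, one_mul] at h
    exact h
  · have : Phi s = 0 := by
      by_contra hne
      exact absurd ((phi_good s.den).le_one hne) (not_le.mpr h1)
    rw [this, abs_zero]
    exact (om_pos s).le

lemma Phi_one : Phi 1 = 1 := by
  have h : Lat 0 1 := ⟨1, by simp [D]⟩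
  rw [Phi_eq h]
  simp [phi]

lemma not_lat_mu (k : ℕ) : ¬ Lat k (mu k) := by
  intro h
  have h1 : (1 : ℤ) = 0 := mu_sep (k := k) (by simpa using h) (by
    have := mu_lt_one k
    simpa using this.le)
  exact one_ne_zero h1

lemma partial_sum {s : ℚ} (h0 : 0 ≤ s) {n : ℕ} (hn : s.den ≤ n) :
    ∑ i ∈ range (n + 1), lam i * Phi (s + mu i) = 0 := by
  have hl : Lat n s := (lat_den s).mono hn
  have h1 := R_phi (k := n) h0
  have h2 : phi n (s + mu n) = 0 := by
    by_contra hne
    obtain ⟨h3, -, -⟩ := phi_good n _ hne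
    have h4 := h3.sub hl
    rw [add_sub_cancel_left] at h4
    exact not_lat_mu n h4
  rw [h2, mul_zero, R, if_pos h0] at h1
  rw [← h1]
  apply sum_congr rfl
  intro i hi
  rw [mem_range] at hi
  rw [Phi_eq ((hl.mono (Nat.le_succ n)).add (lat_mu hi))]

lemma tsum_Phi {s : ℚ} (h0 : 0 ≤ s) : ∑' i, lam i * Phi (s + mu i) = 0 := by
  rw [tsum_eq_sum (s := range (s.den + 1)), partial_sum h0 le_rfl]
  intro i hi
  rw [mem_range, not_lt] at hi
  obtain ⟨m, rfl⟩ : ∃ m, i = m + 1 := ⟨i - 1, by omega⟩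
  have h1 := partial_sum h0 (n := m) (by omega)
  have h2 := partial_sum h0 (n := m + 1) (by omega)
  rw [sum_range_succ, h1, zero_add] at h2
  exact h2

lemma mu_strictAnti : StrictAnti mu := strictAnti_nat_of_succ_lt mu_anti

lemma mu_small' (k : ℕ) : mu k * (k + 1) ≤ 1 := by
  have h1 := mu_small (k := k) (j := 1) (by omega)
  have h2 : k + 1 ≤ D k := by
    induction k with
    | zero => exact le_rfl
    | succ k ih =>
      have h3 := two_mul_D_le k
      have h4 := ih (mu_small (k := k) (j := 1) (by omega))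
      omega
  have h3 : ((k : ℚ) + 1) ≤ D k := by exact_mod_cast h2
  have h4 := mu_pos k
  push_cast at h1
  nlinarith

end Pool.Agent.W669.QNS
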