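import Mathlib
import Pool.Agent.H297R2.Schwarz

set_option autoImplicit false

open Finset Polynomial

namespace Pool.Agent.W669.GelC

/-- Shift minus multiplication on sequences. -/
def T (ω : ℂ) (u : ℕ → ℂ) : ℕ → ℂ := fun k => u (k + 1) - ω * u k

/-- Successive application of the operators `T ω`. -/
def ops : List ℂ → (ℕ → ℂ) → (ℕ → ℂ)
  | [], u => u
  | ω :: l, u => ops l (T ω u)

theorem growth (Ω : ℝ) (hΩ0 : 0 ≤ Ω) (l : List ℂ) (hl : ∀ ω ∈ l, ‖ω‖ ≤ Ω) :
    ∀ u : ℕ → ℂ, ops l u = 0 → ∀ k, ‖u k‖ ≤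
      ∑ j ∈ range l.length, ‖ops (l.take j) u 0‖ * ((k.choose j : ℝ) * Ω ^ (k - j)) := by
  induction l with
  | nil =>
    intro u hu k
    have : u = 0 := hu
    simp [this]
  | cons ω l ih =>
    intro u hu k
    have hl' : ∀ ω ∈ l, ‖ω‖ ≤ Ω := fun ω h => hl ω (List.mem_cons_of_mem _ h)
    have hω : ‖ω‖ ≤ Ω := hl ω List.mem_cons_self
    have h1 := ih hl' (T ω u) hu
    induction k with
    | zero =>
      rw [List.length_cons, Finset.sum_range_succ']
      simp [ops]
    | succ k ihk =>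
      have h2 : u (k + 1) = T ω u k + ω * u k := by simp [T]
      rw [h2]
      refine (norm_add_le _ _).trans ?_
      rw [norm_mul]
      have h3 : ‖ω‖ * ‖u k‖ ≤ Ω * ∑ j ∈ range (l.length + 1),
          ‖ops ((ω :: l).take j) u 0‖ * ((k.choose j : ℝ) * Ω ^ (k - j)) := by
        exact mul_le_mul hω ihk (norm_nonneg _) hΩ0
      refine (add_le_add (h1 k) h3).trans ?_
      rw [List.length_cons, Finset.sum_range_succ', Finset.sum_range_succ', mul_add, Finset.mul_sum,
        ← add_assoc, ← Finset.sum_add_distrib]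
      refine add_le_add ?_ ?_
      · refine Finset.sum_le_sum fun j _ => ?_
        rw [List.take_succ_cons]
        show ‖ops (List.take j l) (T ω u) 0‖ * _ + Ω * (‖ops (List.take j l) (T ω u) 0‖ * _) ≤
          ‖ops (List.take j l) (T ω u) 0‖ * _
        rw [Nat.choose_succ_succ, Nat.cast_add]
        have e1 : k + 1 - (j + 1) = k - j := by omega
        rw [e1]
        have e2 : Ω * (‖ops (List.take j l) (T ω u) 0‖ * (((k.choose (j + 1) : ℕ) : ℝ) *
            Ω ^ (k - (j + 1)))) ≤ ‖ops (List.take j l) (T ω u) 0‖ *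
            (((k.choose (j + 1) : ℕ) : ℝ) * Ω ^ (k - j)) := by
          rcases Nat.lt_or_ge k (j + 1) with h | h
          · rw [Nat.choose_eq_zero_of_lt h]; simp
          · have : k - j = (k - (j + 1)) + 1 := by omega
            rw [this, pow_succ]
            apply le_of_eq; ring
        nlinarith [e2]
      · simp only [List.take_zero, Nat.choose_zero_right, Nat.cast_one, Nat.sub_zero, one_mul]
        rw [pow_succ]
        apply le_of_eq; ring

theorem ops_bound (Ω : ℝ) (hΩ0 : 0 ≤ Ω) (l : List ℂ) (hl : ∀ ω ∈ l, ‖ω‖ ≤ Ω) :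
    ∀ (u : ℕ → ℂ) (k : ℕ), ‖ops l u k‖ ≤
      ∑ j ∈ range (l.length + 1), ((l.length.choose j : ℝ) * Ω ^ (l.length - j)) * ‖u (k + j)‖ := by
  induction l with
  | nil => intro u k; simp [ops]
  | cons ω l ih =>
    intro u k
    have hl' : ∀ ω ∈ l, ‖ω‖ ≤ Ω := fun ω h => hl ω (List.mem_cons_of_mem _ h)
    have hω : ‖ω‖ ≤ Ω := hl ω List.mem_cons_self
    refine (ih hl' (T ω u) k).trans ?_
    set m := l.length with hm
    have hT : ∀ j, ‖T ω u (k + j)‖ ≤ ‖u (k + (j + 1))‖ + Ω * ‖u (k + j)‖ := by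
      intro j
      unfold T
      refine (norm_sub_le _ _).trans ?_
      rw [norm_mul, add_assoc]
      gcongr
    have h1 : ∑ j ∈ range (m + 1), ((m.choose j : ℝ) * Ω ^ (m - j)) * ‖T ω u (k + j)‖ ≤
        ∑ j ∈ range (m + 1), (((m.choose j : ℝ) * Ω ^ (m - j)) * ‖u (k + (j + 1))‖ +
          ((m.choose j : ℝ) * Ω ^ (m - j)) * (Ω * ‖u (k + j)‖)) := by
      refine Finset.sum_le_sum fun j _ => ?_
      rw [← mul_add]
      exact mul_le_mul_of_nonneg_left (hT j) (by positivity)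
    refine h1.trans ?_
    rw [Finset.sum_add_distrib, List.length_cons, ← hm, Finset.sum_range_succ' _ (m + 1)]
    have h2 : ∑ j ∈ range (m + 1), ((m.choose j : ℝ) * Ω ^ (m - j)) * (Ω * ‖u (k + j)‖) =
        ∑ j ∈ range (m + 1), ((m.choose (j + 1) : ℝ) * Ω ^ (m - j)) * ‖u (k + (j + 1))‖ +
          Ω ^ (m + 1) * ‖u k‖ := by
      have h3 : ∑ j ∈ range (m + 1), ((m.choose j : ℝ) * Ω ^ (m - j)) * (Ω * ‖u (k + j)‖) =
          ∑ j ∈ range (m + 2), ((m.choose j : ℝ) * Ω ^ (m + 1 - j)) * ‖u (k + j)‖ := by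
        rw [Finset.sum_range_succ _ (m + 1), Nat.choose_succ_self]
        simp only [Nat.cast_zero, zero_mul, add_zero]
        refine Finset.sum_congr rfl fun j hj => ?_
        have : m + 1 - j = (m - j) + 1 := by
          have := Finset.mem_range.mp hj; omega
        rw [this, pow_succ]; ring
      rw [h3, Finset.sum_range_succ']
      congr 1
      · refine Finset.sum_congr rfl fun j hj => ?_
        have : m + 1 - (j + 1) = m - j := by omega
        rw [this]
      · simp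
    rw [h2, ← add_assoc, ← Finset.sum_add_distrib]
    refine add_le_add (Finset.sum_le_sum fun j hj => ?_) ?_
    · rw [Nat.choose_succ_succ, Nat.cast_add]
      have : m + 1 - (j + 1) = m - j := by omega
      rw [this]
      apply le_of_eq; ring
    · simp


/-- The exponential polynomial with coefficients `p ω`. -/
noncomputable def Ff (W : Finset ℂ) (p : ℂ → ℂ[X]) (z : ℂ) : ℂ :=
  ∑ ω ∈ W, (p ω).eval z * Complex.exp (ω * z)

/-- The derivative on coefficient families. -/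
noncomputable def Dp (p : ℂ → ℂ[X]) : ℂ → ℂ[X] := fun ω => derivative (p ω) + C ω * p ω

theorem hasDerivAt_Ff (W : Finset ℂ) (p : ℂ → ℂ[X]) (z : ℂ) :
    HasDerivAt (Ff W p) (Ff W (Dp p) z) z := by
  unfold Ff
  refine HasDerivAt.fun_sum fun ω _ => ?_
  have h1 := (p ω).hasDerivAt z
  have h2 : HasDerivAt (fun z => Complex.exp (ω * z)) (Complex.exp (ω * z) * ω) z := by
    have h3 : HasDerivAt (fun z : ℂ => ω * z) ω z := by
      simpa using (hasDerivAt_id z).const_mul ω
    exact h3.cexp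
  have h3 := h1.mul h2
  refine h3.congr_deriv ?_
  unfold Dp
  simp only [eval_add, eval_mul, eval_C]
  ring

theorem deriv_Ff (W : Finset ℂ) (p : ℂ → ℂ[X]) : deriv (Ff W p) = Ff W (Dp p) := by
  funext z; exact (hasDerivAt_Ff W p z).deriv

theorem differentiable_Ff (W : Finset ℂ) (p : ℂ → ℂ[X]) : Differentiable ℂ (Ff W p) :=
  fun z => (hasDerivAt_Ff W p z).differentiableAt

theorem iteratedDeriv_Ff (W : Finset ℂ) (k : ℕ) : ∀ (p : ℂ → ℂ[X]),
    iteratedDeriv k (Ff W p) = Ff W (Dp^[k] p) := by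
  induction k with
  | zero => intro p; simp
  | succ k ih =>
    intro p
    rw [iteratedDeriv_succ', deriv_Ff, ih, Function.iterate_succ_apply]

/-- The Taylor sequence. -/
noncomputable def tay (W : Finset ℂ) (p : ℂ → ℂ[X]) (k : ℕ) : ℂ := Ff W (Dp^[k] p) 0

/-- The operator `D - ω₀` on coefficient families. -/
noncomputable def Op (ω₀ : ℂ) (p : ℂ → ℂ[X]) : ℂ → ℂ[X] :=
  fun ω => derivative (p ω) + C (ω - ω₀) * p ω

theorem Op_eq (ω₀ : ℂ) (p : ℂ → ℂ[X]) : Op ω₀ p = Dp p - ω₀ • p := by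
  funext ω
  simp only [Op, Dp, Pi.sub_apply, Pi.smul_apply, C_sub, smul_eq_C_mul]
  ring

theorem Dp_sub_smul (ω₀ : ℂ) (p q : ℂ → ℂ[X]) : Dp (p - ω₀ • q) = Dp p - ω₀ • Dp q := by
  funext ω
  simp only [Dp, Pi.sub_apply, Pi.smul_apply, smul_eq_C_mul, derivative_sub, derivative_C_mul]
  ring

theorem Dp_iter_sub_smul (ω₀ : ℂ) (k : ℕ) : ∀ (p q : ℂ → ℂ[X]),
    Dp^[k] (p - ω₀ • q) = Dp^[k] p - ω₀ • Dp^[k] q := by
  induction k with
  | zero => intro p q; rfl
  | succ k ih =>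
    intro p q
    rw [Function.iterate_succ_apply, Dp_sub_smul, ih]
    rfl

theorem Ff_sub_smul (W : Finset ℂ) (ω₀ : ℂ) (p q : ℂ → ℂ[X]) (z : ℂ) :
    Ff W (p - ω₀ • q) z = Ff W p z - ω₀ * Ff W q z := by
  unfold Ff
  rw [Finset.mul_sum, ← Finset.sum_sub_distrib]
  refine Finset.sum_congr rfl fun ω _ => ?_
  simp only [Pi.sub_apply, Pi.smul_apply, eval_sub, eval_smul, smul_eq_mul]
  ring

theorem T_tay (W : Finset ℂ) (ω₀ : ℂ) (p : ℂ → ℂ[X]) :
    T ω₀ (tay W p) = tay W (Op ω₀ p) := by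
  funext k
  unfold T tay
  rw [Op_eq, Dp_iter_sub_smul, Ff_sub_smul, Function.iterate_succ_apply]

/-- Successive application of `Op`. -/
noncomputable def opsP : List ℂ → (ℂ → ℂ[X]) → (ℂ → ℂ[X])
  | [], p => p
  | ω :: l, p => opsP l (Op ω p)

theorem ops_tay (W : Finset ℂ) (l : List ℂ) : ∀ p : ℂ → ℂ[X],
    ops l (tay W p) = tay W (opsP l p) := by
  induction l with
  | nil => intro p; rfl
  | cons ω l ih => intro p; simp only [ops, opsP, T_tay, ih]

theorem opsP_eq_zero (l : List ℂ) (ω : ℂ) : ∀ p : ℂ → ℂ[X],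
    (p ω).degree < (l.count ω : ℕ) → opsP l p ω = 0 := by
  classical
  induction l with
  | nil =>
    intro p hp
    simp only [opsP]
    rw [List.count_nil, Nat.cast_zero] at hp
    by_contra h
    exact absurd hp (not_lt.mpr (zero_le_degree_iff.mpr h))
  | cons ω₁ l ih =>
    intro p hp
    simp only [opsP]
    apply ih
    unfold Op
    by_cases h : ω₁ = ω
    · subst h
      rw [List.count_cons_self] at hp
      simp only [sub_self, C_0, zero_mul, add_zero]
      by_cases h0 : p ω₁ = 0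
      · rw [h0]; simp
      · have h1 := degree_derivative_lt h0
        rw [degree_eq_natDegree h0] at hp h1
        have hp' : (p ω₁).natDegree < l.count ω₁ + 1 := by exact_mod_cast hp
        refine lt_of_lt_of_le h1 ?_
        exact_mod_cast Nat.lt_succ_iff.mp hp'
    · rw [List.count_cons_of_ne h] at hp
      refine lt_of_le_of_lt (degree_add_le _ _) (max_lt ?_ ?_)
      · exact lt_of_le_of_lt (degree_derivative_le) hp
      · refine lt_of_le_of_lt ?_ hp
        by_cases hc : ω - ω₁ = 0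
        · rw [hc]; simp
        · rw [degree_C_mul hc]

theorem opsP_ne_zero (l : List ℂ) (ω : ℂ) (hω : ω ∉ l) : ∀ p : ℂ → ℂ[X],
    opsP l p ω = 0 → p ω = 0 := by
  induction l with
  | nil => intro p hp; exact hp
  | cons ω₁ l ih =>
    intro p hp
    simp only [opsP] at hp
    have h1 := ih (fun h => hω (List.mem_cons_of_mem _ h)) _ hp
    have h2 : ω ≠ ω₁ := fun h => hω (h ▸ List.mem_cons_self)
    by_contra h0
    unfold Op at h1
    have h3 : (C (ω - ω₁) * p ω).degree = (p ω).degree := degree_C_mul (sub_ne_zero.mpr h2)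
    have h4 : (derivative (p ω) + C (ω - ω₁) * p ω).degree = (p ω).degree := by
      rw [degree_add_eq_right_of_degree_lt, h3]
      rw [h3]; exact degree_derivative_lt h0
    rw [h1, degree_zero] at h4
    exact h0 (degree_eq_bot.mp h4.symm)

theorem Ff_opsP (W : Finset ℂ) (l : List ℂ) : ∀ p : ℂ → ℂ[X], (∀ z, Ff W p z = 0) →
    ∀ z, Ff W (opsP l p) z = 0 := by
  induction l with
  | nil => intro p hp; exact hp
  | cons ω₁ l ih =>
    intro p hp
    apply ih
    intro z
    rw [Op_eq, Ff_sub_smul, hp z, mul_zero, sub_zero, ← deriv_Ff]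
    have : Ff W p = fun _ => 0 := funext hp
    rw [this]; simp

/-- The list with every element of `W` repeated `L` times. -/
noncomputable def lst (W : Finset ℂ) (L : ℕ) : List ℂ := (List.replicate L W.toList).flatten

theorem lst_length (W : Finset ℂ) (L : ℕ) : (lst W L).length = L * W.card := by
  unfold lst
  simp

theorem lst_count (W : Finset ℂ) (L : ℕ) {ω : ℂ} (hω : ω ∈ W) :
    (lst W L).count ω = L := by
  classical
  unfold lst
  rw [List.count_flatten, List.map_replicate, List.sum_replicate,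
    List.count_eq_one_of_mem W.nodup_toList (Finset.mem_toList.mpr hω)]
  simp

theorem mem_lst (W : Finset ℂ) (L : ℕ) {ω : ℂ} (h : ω ∈ lst W L) : ω ∈ W := by
  unfold lst at h
  rw [List.mem_flatten] at h
  obtain ⟨l, hl, hω⟩ := h
  rw [List.mem_replicate] at hl
  rw [hl.2] at hω
  exact Finset.mem_toList.mp hω

theorem eq_zero_of_Ff (W : Finset ℂ) (L : ℕ) (p : ℂ → ℂ[X]) (hp : ∀ ω ∈ W, (p ω).degree < L)
    (h : ∀ z, Ff W p z = 0) : ∀ ω ∈ W, p ω = 0 := by
  classical
  intro ω hω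
  have h1 := Ff_opsP W (lst (W.erase ω) L) p h
  have h2 : ∀ ω' ∈ W.erase ω, opsP (lst (W.erase ω) L) p ω' = 0 := by
    intro ω' hω'
    apply opsP_eq_zero
    rw [lst_count _ _ hω']
    exact hp ω' (Finset.mem_of_mem_erase hω')
  have h3 : opsP (lst (W.erase ω) L) p ω = 0 := by
    apply Polynomial.funext
    intro z
    have h4 := h1 z
    unfold Ff at h4
    rw [← Finset.add_sum_erase _ _ hω, Finset.sum_eq_zero (fun ω' hω' => by rw [h2 ω' hω']; simp),
      add_zero] at h4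
    rcases mul_eq_zero.mp h4 with h5 | h5
    · rw [h5]; simp
    · exact absurd h5 (Complex.exp_ne_zero _)
  refine opsP_ne_zero _ ω ?_ p h3
  intro h5
  exact (Finset.notMem_erase ω W) (mem_lst _ _ h5)

theorem tay_zero (W : Finset ℂ) (L : ℕ) (p : ℂ → ℂ[X]) (hp : ∀ ω ∈ W, (p ω).degree < L) :
    ops (lst W L) (tay W p) = 0 := by
  classical
  rw [ops_tay]
  have h1 : ∀ ω ∈ W, opsP (lst W L) p ω = 0 := by
    intro ω hω
    apply opsP_eq_zero
    rw [lst_count _ _ hω]
    exact hp ω hω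
  have h2 : ∀ (k : ℕ) (q : ℂ → ℂ[X]), (∀ ω ∈ W, q ω = 0) → ∀ ω ∈ W, (Dp^[k] q) ω = 0 := by
    intro k
    induction k with
    | zero => intro q hq; exact hq
    | succ k ih =>
      intro q hq
      rw [Function.iterate_succ_apply]
      apply ih
      intro ω hω
      unfold Dp
      rw [hq ω hω]; simp
  funext k
  unfold tay Ff
  refine Finset.sum_eq_zero fun ω hω => ?_
  rw [h2 k _ h1 ω hω]; simp


theorem iteratedDeriv_eq_tay (W : Finset ℂ) (p : ℂ → ℂ[X]) (k : ℕ) :
    iteratedDeriv k (Ff W p) 0 = tay W p k := by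
  rw [iteratedDeriv_Ff]; rfl

theorem f_bound (W : Finset ℂ) (p : ℂ → ℂ[X]) (Ω R B : ℝ) (hΩ0 : 0 ≤ Ω) (hR : 0 < R)
    (hB : ∀ z : ℂ, ‖z‖ = R → ‖Ff W p z‖ ≤ B) (l : List ℂ) (hl : ∀ ω ∈ l, ‖ω‖ ≤ Ω) :
    ‖ops l (tay W p) 0‖ ≤ B * (l.length.factorial / R ^ l.length) * Real.exp (Ω * R) := by
  have hu : ∀ j, ‖tay W p j‖ ≤ j.factorial * B / R ^ j := by
    intro j
    rw [← iteratedDeriv_eq_tay]
    refine Complex.norm_iteratedDeriv_le_of_forall_mem_sphere_norm_le j hR
      (differentiable_Ff W p).diffContOnCl (fun z hz => hB z (by simpa using hz))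
  have hB0 : 0 ≤ B := (norm_nonneg _).trans (hB (R : ℂ) (by simp [abs_of_pos hR]))
  refine (ops_bound Ω hΩ0 l hl (tay W p) 0).trans ?_
  set m := l.length with hm
  have h1 : ∀ j ∈ range (m + 1), ((m.choose j : ℝ) * Ω ^ (m - j)) * ‖tay W p (0 + j)‖ ≤
      B * (m.factorial / R ^ m) * ((Ω * R) ^ (m - j) / (m - j).factorial) := by
    intro j hj
    have hj' : j ≤ m := Nat.lt_succ_iff.mp (Finset.mem_range.mp hj)
    rw [zero_add]
    refine (mul_le_mul_of_nonneg_left (hu j) (by positivity)).trans (le_of_eq ?_)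
    have e1 : (m.choose j : ℝ) = m.factorial / (j.factorial * (m - j).factorial) :=
      Nat.cast_choose ℝ hj'
    have e2 : R ^ m = R ^ j * R ^ (m - j) := by rw [← pow_add]; congr 1; omega
    rw [e1, e2, mul_pow]
    have hjf : (j.factorial : ℝ) ≠ 0 := by positivity
    have hmf : ((m - j).factorial : ℝ) ≠ 0 := by positivity
    have hRj : R ^ j ≠ 0 := by positivity
    have hRm : R ^ (m - j) ≠ 0 := by positivity
    field_simp
  refine (Finset.sum_le_sum h1).trans ?_
  rw [← Finset.mul_sum]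
  refine mul_le_mul_of_nonneg_left ?_ (by positivity)
  have h2 : ∑ j ∈ range (m + 1), (Ω * R) ^ (m - j) / ((m - j).factorial : ℝ) =
      ∑ j ∈ range (m + 1), (Ω * R) ^ j / (j.factorial : ℝ) := by
    rw [← Finset.sum_range_reflect (fun j => (Ω * R) ^ j / (j.factorial : ℝ)) (m + 1)]
    refine Finset.sum_congr rfl fun j _ => ?_
    have : m + 1 - 1 - j = m - j := by omega
    rw [this]
  rw [h2]
  exact Real.sum_le_exp_of_nonneg (by positivity) _

theorem growthF (W : Finset ℂ) (L : ℕ) (p : ℂ → ℂ[X]) (hp : ∀ ω ∈ W, (p ω).degree < L)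
    (Ω R₁ R₂ B : ℝ) (hΩ0 : 0 ≤ Ω) (hΩ : ∀ ω ∈ W, ‖ω‖ ≤ Ω) (hR₁ : 0 < R₁) (hR₂ : 0 ≤ R₂)
    (hB : ∀ z : ℂ, ‖z‖ = R₁ → ‖Ff W p z‖ ≤ B) (z : ℂ) (hz : ‖z‖ ≤ R₂) :
    ‖Ff W p z‖ ≤ B * Real.exp (Ω * (R₁ + R₂)) * ∑ m ∈ range (L * W.card), (R₂ / R₁) ^ m := by
  have hB0 : 0 ≤ B := (norm_nonneg _).trans (hB (R₁ : ℂ) (by simp [abs_of_pos hR₁]))
  have hl : ∀ ω ∈ lst W L, ‖ω‖ ≤ Ω := fun ω h => hΩ ω (mem_lst _ _ h)
  have hg := growth Ω hΩ0 (lst W L) hl (tay W p) (tay_zero W L p hp)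
  rw [lst_length] at hg
  set n := L * W.card with hn
  have hf : ∀ m ∈ range n, ‖ops ((lst W L).take m) (tay W p) 0‖ ≤
      B * (m.factorial / R₁ ^ m) * Real.exp (Ω * R₁) := by
    intro m hm
    have h1 := f_bound W p Ω R₁ B hΩ0 hR₁ hB ((lst W L).take m)
      (fun ω h => hl ω (List.mem_of_mem_take h))
    have h2 : ((lst W L).take m).length = m := by
      rw [List.length_take, lst_length]
      exact min_eq_left (Finset.mem_range.mp hm).le
    rwa [h2] at h1
  have hsum := (Complex.hasSum_taylorSeries_of_entire (differentiable_Ff W p) 0 z).tendsto_sum_nat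
  refine le_of_tendsto' hsum.norm fun N => ?_
  refine (norm_sum_le _ _).trans ?_
  have h3 : ∀ k ∈ range N, ‖((k.factorial : ℂ))⁻¹ • (z - 0) ^ k • iteratedDeriv k (Ff W p) 0‖ ≤
      ∑ m ∈ range n, (B * (m.factorial / R₁ ^ m) * Real.exp (Ω * R₁)) *
        ((k.choose m : ℝ) * Ω ^ (k - m) * R₂ ^ k / k.factorial) := by
    intro k _
    rw [norm_smul, norm_smul, sub_zero, norm_pow, norm_inv, Complex.norm_natCast,
      iteratedDeriv_eq_tay]
    have h4 : ‖tay W p k‖ ≤ ∑ m ∈ range n, (B * (m.factorial / R₁ ^ m) * Real.exp (Ω * R₁)) *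
        ((k.choose m : ℝ) * Ω ^ (k - m)) :=
      (hg k).trans (Finset.sum_le_sum fun m hm =>
        mul_le_mul_of_nonneg_right (hf m hm) (by positivity))
    calc ((k.factorial : ℝ))⁻¹ * (‖z‖ ^ k * ‖tay W p k‖)
        ≤ ((k.factorial : ℝ))⁻¹ * (R₂ ^ k * ∑ m ∈ range n,
          (B * (m.factorial / R₁ ^ m) * Real.exp (Ω * R₁)) *
            ((k.choose m : ℝ) * Ω ^ (k - m))) := by gcongr
      _ = _ := by
          rw [← mul_assoc, Finset.mul_sum]
          refine Finset.sum_congr rfl fun m _ => ?_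
          ring
  refine (Finset.sum_le_sum h3).trans ?_
  rw [Finset.sum_comm, Finset.mul_sum]
  refine Finset.sum_le_sum fun m _ => ?_
  rw [← Finset.mul_sum]
  have h5 : ∑ k ∈ range N, (k.choose m : ℝ) * Ω ^ (k - m) * R₂ ^ k / k.factorial ≤
      R₂ ^ m / m.factorial * Real.exp (Ω * R₂) := by
    have h6 : ∑ k ∈ range N, (k.choose m : ℝ) * Ω ^ (k - m) * R₂ ^ k / k.factorial ≤
        ∑ k ∈ range (m + N), (k.choose m : ℝ) * Ω ^ (k - m) * R₂ ^ k / k.factorial := by
      refine Finset.sum_le_sum_of_subset_of_nonneg ?_ (fun k _ _ => by positivity)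
      intro k hk
      rw [Finset.mem_range] at hk ⊢
      omega
    refine h6.trans ?_
    rw [Finset.sum_range_add, Finset.sum_eq_zero (s := range m), zero_add]
    · have h7 : ∀ k ∈ range N, ((m + k).choose m : ℝ) * Ω ^ (m + k - m) * R₂ ^ (m + k) /
          (m + k).factorial = R₂ ^ m / m.factorial * ((Ω * R₂) ^ k / k.factorial) := by
        intro k _
        have e1 : ((m + k).choose m : ℝ) = (m + k).factorial / (m.factorial * k.factorial) := by
          have := Nat.cast_choose ℝ (Nat.le_add_right m k)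
          rwa [Nat.add_sub_cancel_left] at this
        rw [e1, Nat.add_sub_cancel_left, pow_add, mul_pow]
        have h8 : ((m + k).factorial : ℝ) ≠ 0 := by positivity
        have h9 : (m.factorial : ℝ) ≠ 0 := by positivity
        have h10 : (k.factorial : ℝ) ≠ 0 := by positivity
        field_simp
      rw [Finset.sum_congr rfl h7, ← Finset.mul_sum]
      exact mul_le_mul_of_nonneg_left (Real.sum_le_exp_of_nonneg (by positivity) _) (by positivity)
    · intro k hk
      rw [Nat.choose_eq_zero_of_lt (Finset.mem_range.mp hk)]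
      simp
  refine (mul_le_mul_of_nonneg_left h5 (by positivity)).trans (le_of_eq ?_)
  rw [mul_add, Real.exp_add, div_pow]
  have h9 : (m.factorial : ℝ) ≠ 0 := by positivity
  have h11 : R₁ ^ m ≠ 0 := by positivity
  field_simp

/-- The coefficient families of the exponential polynomial in the statement. -/
noncomputable def pf {ι : Type*} [Fintype ι] (c : ι → ℂ) (a : ι → ℕ) (w : ι → ℂ) (ω : ℂ) : ℂ[X] :=
  ∑ i, if w i = ω then C (c i) * X ^ a i else 0

theorem Ff_pf {ι : Type*} [Fintype ι] (c : ι → ℂ) (a : ι → ℕ) (w : ι → ℂ) (W : Finset ℂ)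
    (hw : ∀ i, w i ∈ W) :
    (fun z => ∑ i, c i * z ^ a i * Complex.exp (w i * z)) = Ff W (pf c a w) := by
  classical
  funext z
  unfold Ff pf
  have : ∀ ω ∈ W, (∑ i, if w i = ω then C (c i) * X ^ a i else 0 : ℂ[X]).eval z *
      Complex.exp (ω * z) = ∑ i, if w i = ω then c i * z ^ a i * Complex.exp (ω * z) else 0 := by
    intro ω _
    rw [eval_finsetSum, Finset.sum_mul]
    refine Finset.sum_congr rfl fun i _ => ?_
    split_ifs
    · simp
    · simp
  rw [Finset.sum_congr rfl this, Finset.sum_comm]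
  refine Finset.sum_congr rfl fun i _ => ?_
  rw [Finset.sum_ite_eq, if_pos (hw i)]

theorem pf_degree {ι : Type*} [Fintype ι] (c : ι → ℂ) (a : ι → ℕ) (w : ι → ℂ) (L : ℕ)
    (ha : ∀ i, a i < L) (ω : ℂ) : (pf c a w ω).degree < L := by
  classical
  unfold pf
  refine (degree_sum_le _ _).trans_lt ?_
  rw [Finset.sup_lt_iff (by exact_mod_cast WithBot.bot_lt_coe L)]
  intro i _
  split_ifs
  · refine (degree_C_mul_X_pow_le _ _).trans_lt ?_
    exact_mod_cast ha i
  · rw [degree_zero]; exact_mod_cast WithBot.bot_lt_coe L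

theorem pf_coeff {ι : Type*} [Fintype ι] (c : ι → ℂ) (a : ι → ℕ) (w : ι → ℂ)
    (hinj : Function.Injective (fun i => (a i, w i))) (i : ι) :
    (pf c a w (w i)).coeff (a i) = c i := by
  classical
  unfold pf
  rw [finsetSum_coeff, Finset.sum_eq_single i]
  · simp
  · intro j _ hj
    split_ifs with h
    · rw [coeff_C_mul, coeff_X_pow, if_neg, mul_zero]
      intro h2
      exact hj (hinj (Prod.ext h2.symm h))
    · simp
  · intro h; exact absurd (Finset.mem_univ i) h

theorem zero_estimate {ι : Type*} [Fintype ι] (c : ι → ℂ) (a : ι → ℕ) (w : ι → ℂ)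
    (L : ℕ) (W : Finset ℂ) (Ω r : ℝ) (s : ℕ) (Z : Finset ℂ)
    (hinj : Function.Injective (fun i => (a i, w i))) (hc : c ≠ 0)
    (ha : ∀ i, a i < L) (hw : ∀ i, w i ∈ W) (hΩ : ∀ ω ∈ W, ‖ω‖ ≤ Ω)
    (hr : 0 < r) (hΩ0 : 0 ≤ Ω) (hZ : ∀ z ∈ Z, ‖z‖ ≤ r)
    (h0 : ∀ z ∈ Z, ∀ t < s,
      iteratedDeriv t (fun z => ∑ i, c i * z ^ a i * Complex.exp (w i * z)) z = 0) :
    ((s * Z.card : ℕ) : ℝ) ≤ 3 * ((L * W.card : ℕ) : ℝ) + 9 * Ω * r := by
  classical
  rw [Ff_pf c a w W hw] at h0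
  set p := pf c a w with hpdef
  have hdeg : ∀ ω ∈ W, (p ω).degree < L := fun ω _ => pf_degree c a w L ha ω
  set n := L * W.card with hn
  set F := Ff W p with hF
  have hFd : Differentiable ℂ F := differentiable_Ff W p
  -- maximum on the closed ball
  obtain ⟨w₀, hw₀, hmax⟩ := (isCompact_closedBall (0 : ℂ) r).exists_isMaxOn
    ⟨0, by simp [hr.le]⟩ hFd.continuous.norm.continuousOn
  have hmax' : ∀ z, ‖z‖ ≤ r → ‖F z‖ ≤ ‖F w₀‖ := fun z hz => hmax (by simpa using hz)
  have hw₀' : ‖w₀‖ ≤ r := by simpa using hw₀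
  have hBpos : 0 < ‖F w₀‖ := by
    rcases (norm_nonneg (F w₀)).lt_or_eq with h | h
    · exact h
    · exfalso
      have hz : ∀ z, F z = 0 := by
        intro z
        have h1 := growthF W L p hdeg Ω r ‖z‖ ‖F w₀‖ hΩ0 hΩ hr (norm_nonneg _)
          (fun z hz => hmax' z hz.le) z le_rfl
        rw [← h] at h1
        simpa using h1
      have h1 := eq_zero_of_Ff W L p hdeg hz
      apply hc
      funext i
      rw [← pf_coeff c a w hinj i, ← hpdef, h1 _ (hw i)]
      simp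
  have hM : ∀ z : ℂ, ‖z‖ = 5 * r → ‖F z‖ ≤ ‖F w₀‖ * Real.exp (Ω * (r + 5 * r)) *
      ∑ m ∈ range n, (5 * r / r) ^ m := fun z hz =>
    growthF W L p hdeg Ω r (5 * r) ‖F w₀‖ hΩ0 hΩ hr (by positivity)
      (fun z hz => hmax' z hz.le) z hz.le
  have hS := Pool.Agent.H297R2.schwarz F hFd s Z h0 r (5 * r) _ (2 * r) (by linarith) (by positivity) hZ w₀
    (by linarith) (fun c hc => by
      refine (norm_sub_le _ _).trans ?_
      have := hZ c hc; linarith) hM
  set K := s * Z.card with hK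
  have e1 : 5 * r - r = 2 * (2 * r) := by ring
  have e2 : 5 * r / r = 5 := by field_simp
  rw [e1, e2, mul_pow] at hS
  have h2r : 0 < (2 * r) ^ K := by positivity
  have h5 : ∑ m ∈ range n, (5 : ℝ) ^ m ≤ 5 ^ n := by
    have := geom_sum_eq (by norm_num : (5 : ℝ) ≠ 1) n
    rw [this]
    have h6 : (1 : ℝ) ≤ 5 ^ n := one_le_pow₀ (by norm_num)
    linarith [div_le_self (by linarith : (0 : ℝ) ≤ 5 ^ n - 1) (by norm_num : (1 : ℝ) ≤ 5 - 1)]
  have h6 : (2 : ℝ) ^ K ≤ Real.exp (6 * Ω * r) * 5 ^ n := by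
    have h7 : (‖F w₀‖ * (2 * r) ^ K) * 2 ^ K ≤ (‖F w₀‖ * (2 * r) ^ K) *
        (Real.exp (6 * Ω * r) * 5 ^ n) := by
      calc (‖F w₀‖ * (2 * r) ^ K) * 2 ^ K = ‖F w₀‖ * (2 ^ K * (2 * r) ^ K) := by ring
        _ ≤ ‖F w₀‖ * Real.exp (Ω * (r + 5 * r)) * (∑ m ∈ range n, (5 : ℝ) ^ m) *
            (2 * r) ^ K := hS
        _ ≤ ‖F w₀‖ * Real.exp (Ω * (r + 5 * r)) * 5 ^ n * (2 * r) ^ K := by gcongr
        _ = _ := by
          have : Ω * (r + 5 * r) = 6 * Ω * r := by ring
          rw [this]; ring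
    exact le_of_mul_le_mul_left h7 (by positivity)
  have h8 := Real.log_le_log (by positivity) h6
  rw [Real.log_pow, Real.log_mul (Real.exp_ne_zero _) (by positivity), Real.log_exp,
    Real.log_pow] at h8
  have hl2 : (2 : ℝ) / 3 < Real.log 2 := by
    have := Real.log_two_gt_d9; linarith
  have hl5 : Real.log 5 ≤ 3 * Real.log 2 := by
    have : (3 : ℝ) * Real.log 2 = Real.log (2 ^ 3) := by rw [Real.log_pow]; norm_num
    rw [this]
    exact Real.log_le_log (by norm_num) (by norm_num)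
  have hn0 : (0 : ℝ) ≤ n := Nat.cast_nonneg _
  have hΩr : 0 ≤ Ω * r := by positivity
  have h9 : (K : ℝ) * Real.log 2 ≤ (3 * (n : ℝ) + 9 * Ω * r) * Real.log 2 := by
    have h10 : (n : ℝ) * Real.log 5 ≤ n * (3 * Real.log 2) := by gcongr
    nlinarith [h8, h10, hl2, hΩr]
  have hlog : 0 < Real.log 2 := by linarith
  exact le_of_mul_le_mul_right h9 hlog

end Pool.Agent.W669.GelC
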