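import Pool.Agent.W810.KP.Defs

/-!
# Real analysis of the last step of project KP (task CVX)

If `G M → g` pointwise, the second derivative of `G M` at `1/2 - t` is at most
`C t^(-1/3-ε)` for `M ≥ t⁻²`, `g` is left continuous at `1/2` and `g q + g (1-q) = 1`, then `g`
is differentiable near `1/2` with `|g' q - g' (1/2)| ≤ C' |q - 1/2|^(2/3-ε)`.
-/

namespace Pool.Agent.W669.KPCvx

open Filter Topology Set

/-- The antiderivative of the bound. -/
noncomputable def psi (C ε : ℝ) (t : ℝ) : ℝ := C / (2 / 3 - ε) * t ^ ((2:ℝ) / 3 - ε)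

lemma psi_deriv {C ε t : ℝ} (hε : ε < 2 / 3) (ht : 0 < t) :
    HasDerivAt (psi C ε) (C * t ^ (-(1/3) - ε)) t := by
  have h1 : HasDerivAt (fun t : ℝ => t ^ ((2:ℝ) / 3 - ε))
      (((2:ℝ) / 3 - ε) * t ^ ((2:ℝ) / 3 - ε - 1)) t :=
    Real.hasDerivAt_rpow_const (Or.inl ht.ne')
  have h2 := h1.const_mul (C / (2 / 3 - ε))
  have h3 : (2:ℝ) / 3 - ε ≠ 0 := by linarith
  have h4 : (2:ℝ) / 3 - ε - 1 = -(1/3) - ε := by ring
  rw [h4] at h2
  have h5 : C / (2 / 3 - ε) * ((2 / 3 - ε) * t ^ (-(1/3) - ε)) = C * t ^ (-(1/3) - ε) := by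
    rw [← mul_assoc, div_mul_cancel₀ _ h3]
  rw [h5] at h2
  exact h2

lemma psi_zero {C ε : ℝ} (hε : ε < 2 / 3) : psi C ε 0 = 0 := by
  unfold psi
  rw [Real.zero_rpow (by linarith), mul_zero]

lemma psi_mono {C ε s t : ℝ} (hC : 0 < C) (hε : ε < 2 / 3) (hs : 0 ≤ s) (hst : s ≤ t) :
    psi C ε s ≤ psi C ε t := by
  unfold psi
  have h3 : 0 < (2:ℝ) / 3 - ε := by linarith
  have : 0 < C / (2 / 3 - ε) := div_pos hC h3
  exact mul_le_mul_of_nonneg_left (Real.rpow_le_rpow hs hst h3.le) this.le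

lemma psi_cont {C ε : ℝ} (hε : ε < 2 / 3) : Continuous (psi C ε) := by
  unfold psi
  have h3 : 0 < (2:ℝ) / 3 - ε := by linarith
  exact continuous_const.mul (Real.continuous_rpow_const h3.le)

/-- First derivative increments. -/
lemma incr1 {C ε τ : ℝ} (hτ : τ ≤ 1 / 4) (hε : ε < 2 / 3)
    (F1 F2 : ℝ → ℝ) (s t : ℝ) (hs : 0 < s) (hst : s ≤ t) (ht : t < τ)
    (hd : ∀ u, 0 < u → u < 1 / 2 → HasDerivAt F1 (F2 u) u)
    (hb : ∀ u, s ≤ u → u < τ → |F2 u| ≤ C * u ^ (-(1/3) - ε)) :
    |F1 t - F1 s| ≤ psi C ε t - psi C ε s := by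
  have key : ∀ σ : ℝ, (σ = 1 ∨ σ = -1) →
      MonotoneOn (fun u => psi C ε u + σ * F1 u) (Icc s t) := by
    intro σ hσ
    have hD : ∀ u ∈ Icc s t, HasDerivAt (fun u => psi C ε u + σ * F1 u)
        (C * u ^ (-(1/3) - ε) + σ * F2 u) u := by
      intro u hu
      exact (psi_deriv hε (lt_of_lt_of_le hs hu.1)).add
        ((hd u (lt_of_lt_of_le hs hu.1) (by linarith [hu.2])).const_mul σ)
    apply monotoneOn_of_deriv_nonneg (convex_Icc s t)
    · intro u hu
      exact (hD u hu).continuousAt.continuousWithinAt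
    · intro u hu
      exact (hD u (interior_subset hu)).differentiableAt.differentiableWithinAt
    · intro u hu
      have hu' := interior_subset hu
      rw [(hD u hu').deriv]
      have := hb u hu'.1 (lt_of_le_of_lt hu'.2 ht)
      rw [abs_le] at this
      rcases hσ with rfl | rfl <;> linarith [this.1, this.2]
  have h1 := key 1 (Or.inl rfl) (left_mem_Icc.2 hst) (right_mem_Icc.2 hst) hst
  have h2 := key (-1) (Or.inr rfl) (left_mem_Icc.2 hst) (right_mem_Icc.2 hst) hst
  simp only at h1 h2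
  rw [abs_le]
  constructor <;> linarith

/-- Taylor estimate. -/
lemma taylor1 {C ε τ : ℝ} (hC : 0 < C) (hτ : τ ≤ 1 / 4) (hε : ε < 2 / 3)
    (F F1 F2 : ℝ → ℝ) (m s t : ℝ) (hm : 0 < m) (hs : m ≤ s) (hsτ : s < τ) (ht : m ≤ t)
    (htτ : t < τ)
    (hd0 : ∀ u, 0 < u → u < 1 / 2 → HasDerivAt F (F1 u) u)
    (hd : ∀ u, 0 < u → u < 1 / 2 → HasDerivAt F1 (F2 u) u)
    (hb : ∀ u, m ≤ u → u < τ → |F2 u| ≤ C * u ^ (-(1/3) - ε)) :
    |F t - F s - F1 s * (t - s)| ≤ |psi C ε t - psi C ε s| * |t - s| := by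
  rcases lt_trichotomy s t with hst | hst | hst
  · obtain ⟨ξ, hξ, hξe⟩ := exists_hasDerivAt_eq_slope F F1 hst
      (fun u hu => (hd0 u (by linarith [hu.1]) (by linarith [hu.2])).continuousAt.continuousWithinAt)
      (fun u hu => hd0 u (by linarith [hu.1]) (by linarith [hu.2]))
    have h1 : F t - F s = F1 ξ * (t - s) := by
      rw [hξe]; field_simp [sub_ne_zero.2 hst.ne']
    have h2 : F t - F s - F1 s * (t - s) = (F1 ξ - F1 s) * (t - s) := by rw [h1]; ring
    rw [h2, abs_mul]
    apply mul_le_mul_of_nonneg_right _ (abs_nonneg _)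
    have h3 := incr1 (C := C) hτ hε F1 F2 s ξ (by linarith) hξ.1.le (by linarith [hξ.2]) hd
      (fun u hu hu' => hb u (by linarith) hu')
    have h4 := psi_mono (C := C) hC hε (by linarith [hξ.1] : (0:ℝ) ≤ ξ) hξ.2.le
    calc |F1 ξ - F1 s| ≤ psi C ε ξ - psi C ε s := h3
      _ ≤ psi C ε t - psi C ε s := by linarith
      _ ≤ _ := le_abs_self _
  · subst hst; simp
  · obtain ⟨ξ, hξ, hξe⟩ := exists_hasDerivAt_eq_slope F F1 hst
      (fun u hu => (hd0 u (by linarith [hu.1]) (by linarith [hu.2])).continuousAt.continuousWithinAt)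
      (fun u hu => hd0 u (by linarith [hu.1]) (by linarith [hu.2]))
    have h1 : F s - F t = F1 ξ * (s - t) := by
      rw [hξe]; field_simp [sub_ne_zero.2 hst.ne']
    have h2 : F t - F s - F1 s * (t - s) = (F1 s - F1 ξ) * (s - t) := by
      have : F t - F s = -(F1 ξ * (s - t)) := by rw [← h1]; ring
      rw [this]; ring
    rw [h2, abs_mul, abs_sub_comm s t]
    apply mul_le_mul_of_nonneg_right _ (abs_nonneg _)
    have h3 := incr1 (C := C) hτ hε F1 F2 ξ s (by linarith [hξ.1]) hξ.2.le hsτ hd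
      (fun u hu hu' => hb u (by linarith [hξ.1]) hu')
    have h4 := psi_mono (C := C) hC hε (by linarith [hξ.1] : (0:ℝ) ≤ t) hξ.1.le
    calc |F1 s - F1 ξ| ≤ psi C ε s - psi C ε ξ := h3
      _ ≤ psi C ε s - psi C ε t := by linarith
      _ ≤ |psi C ε t - psi C ε s| := by rw [abs_sub_comm]; exact le_abs_self _

theorem main : Pool.Agent.W810.KP.S_cvx := by
  intro g G G1 G2 C τ ε hC hτ hτ4 hε0 hε hG hG1 hG2 hlim hleft hsym
  -- the functions in the variable t = 1/2 - q
  set F : ℕ → ℝ → ℝ := fun M t => G M (1/2 - t) with hF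
  set F1 : ℕ → ℝ → ℝ := fun M t => - G1 M (1/2 - t) with hF1
  set F2 : ℕ → ℝ → ℝ := fun M t => G2 M (1/2 - t) with hF2
  set f : ℝ → ℝ := fun t => g (1/2 - t) with hf
  have hd0 : ∀ M u, 0 < u → u < 1 / 2 → HasDerivAt (F M) (F1 M u) u := by
    intro M u hu hu'
    have h1 := hG M (1/2 - u) (by linarith) (by linarith)
    have h2 : HasDerivAt (fun t : ℝ => 1/2 - t) (-1) u := by
      simpa using (hasDerivAt_id u).const_sub (1/2 : ℝ)
    have h3 := HasDerivAt.comp u h1 h2
    have h4 : G1 M (1/2 - u) * (-1) = F1 M u := by simp only [hF1]; ring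
    rw [h4] at h3
    exact h3
  have hd1 : ∀ M u, 0 < u → u < 1 / 2 → HasDerivAt (F1 M) (F2 M u) u := by
    intro M u hu hu'
    have h1 := hG1 M (1/2 - u) (by linarith) (by linarith)
    have h2 : HasDerivAt (fun t : ℝ => 1/2 - t) (-1) u := by
      simpa using (hasDerivAt_id u).const_sub (1/2 : ℝ)
    have h3 := (HasDerivAt.comp u h1 h2).neg
    have h4 : -(G2 M (1/2 - u) * (-1)) = F2 M u := by simp only [hF2]; ring
    rw [h4] at h3
    exact h3
  -- bound for M large
  have hbd : ∀ m : ℝ, 0 < m → ∀ M : ℕ, m⁻¹ ^ 2 ≤ (M:ℝ) → ∀ u, m ≤ u → u < τ →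
      |F2 M u| ≤ C * u ^ (-(1/3) - ε) := by
    intro m hm M hM u hu hu'
    apply hG2 M u (lt_of_lt_of_le hm hu) hu'
    refine le_trans ?_ hM
    have : u⁻¹ ≤ m⁻¹ := inv_anti₀ hm hu
    have h0 : 0 ≤ u⁻¹ := inv_nonneg.2 (hm.le.trans hu)
    exact pow_le_pow_left₀ h0 this 2
  have hMev : ∀ m : ℝ, ∀ᶠ M : ℕ in atTop, m⁻¹ ^ 2 ≤ (M:ℝ) := by
    intro m
    exact (tendsto_natCast_atTop_atTop.eventually (eventually_ge_atTop (m⁻¹ ^ 2)))
  have hFlim : ∀ t, 0 ≤ t → t ≤ 1/2 → Tendsto (fun M => F M t) atTop (𝓝 (f t)) := by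
    intro t ht ht'
    exact hlim (1/2 - t) (by linarith) (by linarith)
  -- convergence of the first derivatives
  have hconv : ∀ s, 0 < s → s < τ → ∃ L, Tendsto (fun M => F1 M s) atTop (𝓝 L) := by
    intro s hs hsτ
    apply cauchySeq_tendsto_of_complete
    rw [Metric.cauchySeq_iff']
    intro η hη
    -- choose h
    have hc : ContinuousAt (psi C ε) s := (psi_cont hε).continuousAt
    have hc2 : ∀ᶠ t in 𝓝 s, |psi C ε t - psi C ε s| < η / 4 := by
      have := hc.tendsto.eventually (Metric.ball_mem_nhds (psi C ε s) (by linarith : 0 < η / 4))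
      filter_upwards [this] with t ht
      rwa [Real.dist_eq] at ht
    have hc3 : ∀ᶠ t in 𝓝[>] s, |psi C ε t - psi C ε s| < η / 4 ∧ t < τ :=
      (hc2.filter_mono nhdsWithin_le_nhds).and
        ((eventually_lt_nhds hsτ).filter_mono nhdsWithin_le_nhds)
    obtain ⟨t, ⟨ht1, ht2⟩, hst⟩ := (hc3.and self_mem_nhdsWithin).exists
    have hst' : s < t := hst
    have hts : 0 < t - s := by linarith
    -- slopes converge
    have hsl : Tendsto (fun M => (F M t - F M s) / (t - s)) atTop
        (𝓝 ((f t - f s) / (t - s))) :=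
      ((hFlim t (by linarith) (by linarith)).sub (hFlim s hs.le (by linarith))).div_const _
    have hsl2 : ∀ᶠ M in atTop, |(F M t - F M s) / (t - s) - (f t - f s) / (t - s)| < η / 4 := by
      have := hsl.eventually (Metric.ball_mem_nhds _ (by linarith : 0 < η / 4))
      filter_upwards [this] with M hM
      rwa [Real.dist_eq] at hM
    have hcl : ∀ᶠ M in atTop, |F1 M s - (f t - f s) / (t - s)| < η / 2 := by
      filter_upwards [hsl2, hMev s] with M hM hM2
      have h1 := taylor1 (C := C) hC hτ4 hε (F M) (F1 M) (F2 M) s s t hs le_rfl hsτ hst'.le ht2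
        (hd0 M) (hd1 M) (hbd s hs M hM2)
      have h2 : |F1 M s - (F M t - F M s) / (t - s)| ≤ |psi C ε t - psi C ε s| := by
        have h3 : F1 M s - (F M t - F M s) / (t - s) =
            -((F M t - F M s - F1 M s * (t - s)) / (t - s)) := by
          field_simp; ring
        rw [h3, abs_neg, abs_div]
        rw [div_le_iff₀ (abs_pos.2 hts.ne')]
        exact h1
      calc |F1 M s - (f t - f s) / (t - s)|
          ≤ |F1 M s - (F M t - F M s) / (t - s)|
            + |(F M t - F M s) / (t - s) - (f t - f s) / (t - s)| := abs_sub_le _ _ _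
        _ < η / 4 + η / 4 := by linarith
        _ = η / 2 := by ring
    obtain ⟨N, hN⟩ := eventually_atTop.1 hcl
    refine ⟨N, fun n hn => ?_⟩
    rw [Real.dist_eq]
    have h1 := hN n hn
    have h2 := hN N le_rfl
    calc |F1 n s - F1 N s| ≤ |F1 n s - (f t - f s) / (t - s)|
          + |(f t - f s) / (t - s) - F1 N s| := abs_sub_le _ _ _
      _ < η / 2 + η / 2 := by rw [abs_sub_comm _ (F1 N s)]; linarith
      _ = η := by ring
  choose! f1 hf1 using hconv
  -- limit estimates
  have hincr : ∀ s t, 0 < s → s ≤ t → t < τ → |f1 t - f1 s| ≤ psi C ε t - psi C ε s := by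
    intro s t hs hst ht
    have h1 : Tendsto (fun M => |F1 M t - F1 M s|) atTop (𝓝 |f1 t - f1 s|) :=
      ((hf1 t (by linarith) ht).sub (hf1 s hs (by linarith))).abs
    refine le_of_tendsto h1 ?_
    filter_upwards [hMev s] with M hM
    exact incr1 hτ4 hε (F1 M) (F2 M) s t hs hst ht (hd1 M) (hbd s hs M hM)
  have htay : ∀ s t, 0 < s → s < τ → 0 < t → t < τ →
      |f t - f s - f1 s * (t - s)| ≤ |psi C ε t - psi C ε s| * |t - s| := by
    intro s t hs hsτ ht htτ
    have h1 : Tendsto (fun M => |F M t - F M s - F1 M s * (t - s)|) atTop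
        (𝓝 |f t - f s - f1 s * (t - s)|) :=
      (((hFlim t ht.le (by linarith)).sub (hFlim s hs.le (by linarith))).sub
        ((hf1 s hs hsτ).mul_const _)).abs
    refine le_of_tendsto h1 ?_
    have hm : 0 < min s t := lt_min hs ht
    filter_upwards [hMev (min s t)] with M hM
    exact taylor1 hC hτ4 hε (F M) (F1 M) (F2 M) (min s t) s t hm (min_le_left _ _) hsτ
      (min_le_right _ _) htτ (hd0 M) (hd1 M) (hbd _ hm M hM)
  -- the derivative at 0
  have hψ0 : Tendsto (psi C ε) (𝓝 0) (𝓝 0) := by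
    have := (psi_cont (C := C) hε).tendsto 0
    rwa [psi_zero hε] at this
  have hincr' : ∀ s t, 0 < s → s < τ → 0 < t → t < τ →
      |f1 t - f1 s| ≤ |psi C ε t - psi C ε s| := by
    intro s t hs hsτ ht htτ
    rcases le_total s t with h | h
    · exact (hincr s t hs h htτ).trans (le_abs_self _)
    · rw [abs_sub_comm, abs_sub_comm (psi C ε t)]
      exact (hincr t s ht h hsτ).trans (le_abs_self _)
  have hev0 : ∀ᶠ t : ℝ in 𝓝[>] 0, 0 < t ∧ t < τ :=
    (eventually_mem_nhdsWithin).and ((eventually_lt_nhds hτ).filter_mono nhdsWithin_le_nhds)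
  obtain ⟨L, hL⟩ : ∃ L, Tendsto f1 (𝓝[>] 0) (𝓝 L) := by
    apply cauchy_map_iff_exists_tendsto.1
    rw [cauchy_map_iff]
    refine ⟨inferInstance, ?_⟩
    rw [Metric.uniformity_eq_comap_nhds_zero, tendsto_comap_iff]
    have hψ1 : Tendsto (psi C ε) (𝓝[>] 0) (𝓝 0) := hψ0.mono_left nhdsWithin_le_nhds
    have h1 : Tendsto (fun x : ℝ × ℝ => |psi C ε x.1 - psi C ε x.2|) ((𝓝[>] 0) ×ˢ (𝓝[>] 0))
        (𝓝 0) := by
      have := ((hψ1.comp tendsto_fst).sub (hψ1.comp tendsto_snd) :
        Tendsto _ ((𝓝[>] (0:ℝ)) ×ˢ (𝓝[>] (0:ℝ))) _).abs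
      simpa using this
    refine squeeze_zero' (g := fun x : ℝ × ℝ => |psi C ε x.1 - psi C ε x.2|)
      (Eventually.of_forall fun _ => dist_nonneg) ?_ h1
    filter_upwards [hev0.prod_mk hev0] with x hx
    show dist (f1 x.1) (f1 x.2) ≤ _
    rw [Real.dist_eq]
    exact hincr' x.2 x.1 hx.2.1 hx.2.2 hx.1.1 hx.1.2
  have hL1 : ∀ t, 0 < t → t < τ → |f1 t - L| ≤ psi C ε t := by
    intro t ht htτ
    have h1 : Tendsto (fun s => |f1 t - f1 s|) (𝓝[>] 0) (𝓝 |f1 t - L|) :=
      (tendsto_const_nhds.sub hL).abs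
    have h2 : Tendsto (fun s => |psi C ε t - psi C ε s|) (𝓝[>] 0) (𝓝 |psi C ε t - 0|) :=
      (tendsto_const_nhds.sub (hψ0.mono_left nhdsWithin_le_nhds)).abs
    have h3 := le_of_tendsto_of_tendsto h1 h2 (by
      filter_upwards [hev0] with s hs
      exact hincr' s t hs.1 hs.2 ht htτ)
    have h4 : 0 ≤ psi C ε t := by
      have := psi_mono (C := C) hC hε le_rfl ht.le
      rwa [psi_zero hε] at this
    rw [sub_zero, abs_of_nonneg h4] at h3
    exact h3
  have hg12 : g (1/2) = 1/2 := by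
    have := hsym (1/2) (by norm_num) (by norm_num)
    have h2 : (1:ℝ) - 1/2 = 1/2 := by norm_num
    rw [h2] at this
    linarith
  have hf0 : f 0 = 1/2 := by simp only [hf, sub_zero]; exact hg12
  have hfc : Tendsto f (𝓝[>] 0) (𝓝 (f 0)) := by
    rw [hf0]
    have h1 : Tendsto (fun t : ℝ => 1/2 - t) (𝓝[>] 0) (𝓝[<] (1/2)) := by
      apply tendsto_nhdsWithin_of_tendsto_nhds_of_eventually_within
      · have : Tendsto (fun t : ℝ => 1/2 - t) (𝓝 0) (𝓝 (1/2 - 0)) :=
          (continuous_const.sub continuous_id).tendsto 0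
        rw [sub_zero] at this
        exact this.mono_left nhdsWithin_le_nhds
      · filter_upwards [hev0] with t ht
        show 1/2 - t < 1/2
        linarith [ht.1]
    exact hleft.comp h1
  have htay0 : ∀ t, 0 < t → t < τ → |f t - f 0 - L * t| ≤ psi C ε t * t := by
    intro t ht htτ
    have hid : Tendsto (fun s : ℝ => s) (𝓝[>] 0) (𝓝 0) := nhdsWithin_le_nhds
    have h1 : Tendsto (fun s => |f t - f s - f1 s * (t - s)|) (𝓝[>] 0)
        (𝓝 |f t - f 0 - L * (t - 0)|) :=
      ((tendsto_const_nhds.sub hfc).sub (hL.mul (tendsto_const_nhds.sub hid))).abs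
    have h2 : Tendsto (fun s => |psi C ε t - psi C ε s| * |t - s|) (𝓝[>] 0)
        (𝓝 (|psi C ε t - 0| * |t - 0|)) :=
      ((tendsto_const_nhds.sub (hψ0.mono_left nhdsWithin_le_nhds)).abs).mul
        (tendsto_const_nhds.sub hid).abs
    have h3 := le_of_tendsto_of_tendsto h1 h2 (by
      filter_upwards [hev0] with s hs
      exact htay s t hs.1 hs.2 ht htτ)
    have h4 : 0 ≤ psi C ε t := by
      have := psi_mono (C := C) hC hε le_rfl ht.le
      rwa [psi_zero hε] at this
    simp only [sub_zero] at h3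
    rwa [abs_of_nonneg h4, abs_of_nonneg ht.le] at h3
  -- the derivative of g on the left
  have hgl : ∀ q, 1/2 - τ < q → q < 1/2 → HasDerivAt g (- f1 (1/2 - q)) q := by
    intro q hq1 hq2
    rw [hasDerivAt_iff_isLittleO]
    rw [Asymptotics.isLittleO_iff]
    intro c hc
    have hc1 : Tendsto (fun x => |psi C ε (1/2 - x) - psi C ε (1/2 - q)|) (𝓝 q) (𝓝 0) := by
      have h1 : Continuous (fun x => |psi C ε (1/2 - x) - psi C ε (1/2 - q)|) :=
        (((psi_cont hε).comp (continuous_const.sub continuous_id)).sub continuous_const).abs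
      have := h1.tendsto q
      simpa using this
    filter_upwards [hc1.eventually (eventually_lt_nhds hc), eventually_gt_nhds hq1,
      eventually_lt_nhds hq2] with x hx hx1 hx2
    have h1 := htay (1/2 - q) (1/2 - x) (by linarith) (by linarith) (by linarith) (by linarith)
    have e1 : f (1/2 - x) = g x := by simp only [hf]; congr 1; ring
    have e2 : f (1/2 - q) = g q := by simp only [hf]; congr 1; ring
    rw [e1, e2] at h1
    have e3 : (1/2 - x - (1/2 - q) : ℝ) = -(x - q) := by ring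
    rw [e3, abs_neg] at h1
    have e4 : g x - g q - f1 (1/2 - q) * -(x - q) = g x - g q - (x - q) • (- f1 (1/2 - q)) := by
      rw [smul_eq_mul]; ring
    rw [e4] at h1
    rw [Real.norm_eq_abs, Real.norm_eq_abs]
    exact h1.trans (mul_le_mul_of_nonneg_right hx.le (abs_nonneg _))
  -- on the right
  have hgr : ∀ q, 1/2 < q → q < 1/2 + τ → HasDerivAt g (- f1 (q - 1/2)) q := by
    intro q hq1 hq2
    have h1 := hgl (1 - q) (by linarith) (by linarith)
    have h2 : HasDerivAt (fun x : ℝ => 1 - x) (-1) q := by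
      simpa using (hasDerivAt_id q).const_sub (1 : ℝ)
    have h3 := (HasDerivAt.comp q h1 h2).const_sub 1
    have e1 : (1/2 - (1 - q) : ℝ) = q - 1/2 := by ring
    rw [e1] at h3
    have e2 : -(-f1 (q - 1/2) * (-1)) = - f1 (q - 1/2) := by ring
    rw [e2] at h3
    refine h3.congr_of_eventuallyEq ?_
    filter_upwards [eventually_gt_nhds hq1, eventually_lt_nhds (by linarith : q < 1)] with x hx hx1
    have := hsym x (by linarith) hx1.le
    show g x = 1 - g (1 - x)
    linarith
  -- at 1/2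
  have hgm : HasDerivAt g (- L) (1/2) := by
    rw [hasDerivAt_iff_isLittleO]
    rw [Asymptotics.isLittleO_iff]
    intro c hc
    have hc1 : Tendsto (fun x : ℝ => psi C ε |x - 1/2|) (𝓝 (1/2)) (𝓝 0) := by
      have h1 : Continuous (fun x : ℝ => psi C ε |x - 1/2|) :=
        (psi_cont hε).comp (continuous_id.sub continuous_const).abs
      have := h1.tendsto (1/2)
      simpa [psi_zero (C := C) hε] using this
    filter_upwards [hc1.eventually (eventually_lt_nhds hc),
      eventually_gt_nhds (by linarith : (1/2:ℝ) - τ < 1/2),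
      eventually_lt_nhds (by linarith : (1/2:ℝ) < 1/2 + τ)] with x hx hx1 hx2
    rw [Real.norm_eq_abs, Real.norm_eq_abs, smul_eq_mul]
    rcases lt_trichotomy x (1/2) with h | h | h
    · have h1 := htay0 (1/2 - x) (by linarith) (by linarith)
      have e1 : f (1/2 - x) = g x := by simp only [hf]; congr 1; ring
      have e2 : f 0 = g (1/2) := by simp only [hf, sub_zero]
      have e3 : |x - 1/2| = 1/2 - x := by rw [abs_of_neg (by linarith)]; ring
      rw [e1, e2] at h1
      rw [e3] at hx ⊢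
      have e4 : g x - g (1/2) - (x - 1/2) * -L = g x - g (1/2) - L * (1/2 - x) := by ring
      rw [e4]
      exact h1.trans (mul_le_mul_of_nonneg_right hx.le (by linarith))
    · subst h; simp
    · have h1 := htay0 (x - 1/2) (by linarith) (by linarith)
      have e1 : f (x - 1/2) = 1 - g x := by
        have := hsym x (by linarith) (by linarith)
        simp only [hf]
        have e : (1/2 - (x - 1/2) : ℝ) = 1 - x := by ring
        rw [e]; linarith
      have e3 : |x - 1/2| = x - 1/2 := abs_of_pos (by linarith)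
      rw [e1, hf0] at h1
      rw [e3] at hx ⊢
      have e4 : g x - g (1/2) - (x - 1/2) * -L = -(1 - g x - 1/2 - L * (x - 1/2)) := by
        rw [hg12]; ring
      rw [e4, abs_neg]
      exact h1.trans (mul_le_mul_of_nonneg_right hx.le (by linarith))
  -- conclusion
  classical
  refine ⟨fun q => if q = 1/2 then - L else - f1 |q - 1/2|, ?_, C / (2 / 3 - ε), ?_, ?_⟩
  · intro q hq
    rw [abs_lt] at hq
    rcases lt_trichotomy q (1/2) with h | h | h
    · have e : |q - 1/2| = 1/2 - q := by rw [abs_of_neg (by linarith)]; ring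
      simp only [if_neg h.ne, e]
      exact hgl q (by linarith [hq.1]) h
    · subst h
      simp only [if_true]
      exact hgm
    · have e : |q - 1/2| = q - 1/2 := abs_of_pos (by linarith)
      simp only [if_neg h.ne', e]
      exact hgr q h (by linarith [hq.2])
  · exact div_pos hC (by linarith)
  · intro q hq
    by_cases h : q = 1/2
    · subst h
      simp only [if_true, sub_self, abs_zero]
      rw [Real.zero_rpow (by linarith), mul_zero]
    · simp only [if_neg h, if_true]
      have h1 : 0 < |q - 1/2| := abs_pos.2 (sub_ne_zero.2 h)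
      have h2 := hL1 |q - 1/2| h1 hq
      have e : -f1 |q - 1/2| - -L = -(f1 |q - 1/2| - L) := by ring
      rw [e, abs_neg]
      exact h2

end Pool.Agent.W669.KPCvx
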