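import Pool.Agent.W810.KP.Defs

/-!
# Left continuity at `1/2` (task LFT of project KP)
-/

namespace Pool.Agent.W669.KPLft

open H974 H12S H973N Finset Filter Topology Pool.Agent.W810.KP

lemma con_incr (S : Finset Edg) (e : Edg) : IncrE S (Con e) := by
  intro A B hAB _ h
  exact Reach.mono (by exact_mod_cast Finset.erase_subset_erase _ hAB) h

lemma pq_cont (S : Finset Edg) (A : Finset Edg → Prop) : Continuous (fun q : ℝ => PQ q S A) := by
  unfold PQ Pr Ex
  fun_prop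

lemma pq_bdd {q : ℝ} (h0 : 0 ≤ q) (h1 : q ≤ 1) (b : Bool) :
    BddAbove (Set.range fun n : ℕ => PQ q (boxE n) (Con (e0 b))) := by
  refine ⟨1, ?_⟩
  rintro x ⟨n, rfl⟩
  exact Pr_le_one (okq h0 h1) _ _

lemma gb_mono {p q : ℝ} (h0 : 0 ≤ p) (hpq : p ≤ q) (h1 : q ≤ 1) (b : Bool) :
    gb b p ≤ gb b q :=
  ciSup_mono (pq_bdd (h0.trans hpq) h1 b) (fun n =>
    Pr_mono_param (okq h0 (hpq.trans h1)) (okq (h0.trans hpq) h1) (fun _ => hpq) (con_incr _ _))

lemma gb_left (b : Bool) : Tendsto (gb b) (𝓝[<] (1/2)) (𝓝 (gb b (1/2))) := by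
  have hq0 : ∀ᶠ q : ℝ in 𝓝[<] (1/2), 0 ≤ q :=
    ((eventually_gt_nhds (by norm_num : (0:ℝ) < 1/2)).mono (fun _ h => h.le)).filter_mono
      nhdsWithin_le_nhds
  rw [tendsto_order]
  constructor
  · intro a ha
    obtain ⟨n, hn⟩ := exists_lt_of_lt_ciSup ha
    have h1 : ∀ᶠ q in 𝓝 (1/2 : ℝ), a < PQ q (boxE n) (Con (e0 b)) :=
      (pq_cont (boxE n) (Con (e0 b))).continuousAt.eventually (lt_mem_nhds hn)
    filter_upwards [h1.filter_mono nhdsWithin_le_nhds, hq0, self_mem_nhdsWithin] with q hq h0 hlt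
    have hlt' : q < 1/2 := hlt
    exact lt_of_lt_of_le hq (le_ciSup (pq_bdd h0 (by linarith) b) n)
  · intro a ha
    filter_upwards [hq0, self_mem_nhdsWithin] with q h0 hlt
    have hlt' : q < 1/2 := hlt
    exact lt_of_le_of_lt (gb_mono h0 hlt'.le (by norm_num) b) ha

theorem main : Pool.Agent.W810.KP.S_lft := by
  unfold S_lft
  have h := ((gb_left true).add (gb_left false)).div_const 2
  exact h

end Pool.Agent.W669.KPLft
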